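import Pool.Agent.P.MP_708f28_lc.Nuclear

/-!
The seminorms of `C(ℝ)`, and disjointly supported bump functions.
-/

namespace Pool.Agent.P.MP_708f28_lc

open Filter Topology Finset

/-- Restriction to `[-(k+1), k+1]`. -/
def restr (k : ℕ) : C(ℝ, ℝ) →ₗ[ℝ] C(Set.Icc (-((k : ℝ) + 1)) (k + 1), ℝ) where
  toFun f := f.restrict _
  map_add' _ _ := rfl
  map_smul' _ _ := rfl

/-- The supremum of `|f|` on `[-(k+1), k+1]`. -/
noncomputable def pp (k : ℕ) : Seminorm ℝ C(ℝ, ℝ) := (normSeminorm ℝ _).comp (restr k)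

theorem abs_le_pp (k : ℕ) (f : C(ℝ, ℝ)) {t : ℝ} (ht : |t| ≤ k + 1) : |f t| ≤ pp k f :=
  (restr k f).norm_coe_le_norm ⟨t, abs_le.mp ht⟩

theorem pp_le (k : ℕ) (f : C(ℝ, ℝ)) {c : ℝ} (hc : 0 ≤ c) (h : ∀ t : ℝ, |t| ≤ k + 1 → |f t| ≤ c) :
    pp k f ≤ c :=
  ((restr k f).norm_le hc).mpr fun t => h t (abs_le.mpr t.2)

theorem pp_continuous (k : ℕ) : Continuous (pp k) := by
  have h : Continuous (restr k) := ContinuousMap.continuous_restrict _
  exact h.norm

theorem pp_mono (k l : ℕ) (hkl : k ≤ l) (f : C(ℝ, ℝ)) : pp k f ≤ pp l f :=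
  pp_le k f (apply_nonneg _ _) fun _ ht =>
    abs_le_pp l f (ht.trans (by have : (k : ℝ) ≤ l := by exact_mod_cast hkl
                                linarith))

theorem sys_pp : Sys pp where
  mono := pp_mono
  nhds x U := by
    constructor
    · intro hU
      by_contra hcon
      push Not at hcon
      choose y hy1 hy2 using fun k : ℕ => hcon k (1 / ((k : ℝ) + 1)) (by positivity)
      have hlim : Tendsto y atTop (𝓝 x) := by
        rw [ContinuousMap.tendsto_iff_forall_isCompact_tendstoUniformlyOn]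
        intro K hK
        rw [Metric.tendstoUniformlyOn_iff]
        intro ε hε
        obtain ⟨R, hR⟩ := hK.isBounded.exists_norm_le
        obtain ⟨N, hN⟩ := exists_nat_ge R
        filter_upwards [eventually_ge_atTop N,
          tendsto_one_div_add_atTop_nhds_zero_nat.eventually (gt_mem_nhds hε)] with k hk1 hk2 t ht
        have h1 : |t| ≤ k + 1 := by
          have h2 : (N : ℝ) ≤ k := by exact_mod_cast hk1
          have h3 : |t| ≤ R := hR t ht
          linarith
        have h2 := abs_le_pp k (y k - x) h1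
        rw [dist_comm, Real.dist_eq]
        exact (h2.trans_lt (hy1 k)).trans hk2
      obtain ⟨k, hk⟩ := (hlim.eventually hU).exists
      exact hy2 k hk
    · rintro ⟨k, ε, hε, hk⟩
      have h1 : Continuous fun y : C(ℝ, ℝ) => pp k (y - x) :=
        (pp_continuous k).comp (continuous_id.sub continuous_const)
      refine mem_of_superset ((isOpen_lt h1 continuous_const).mem_nhds ?_) hk
      simpa using hε
  sep x hx := by
    ext t
    obtain ⟨k, hk⟩ := exists_nat_ge |t|
    have := abs_le_pp k x (t := t) (by linarith)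
    rw [hx k] at this
    simpa using this

/-- A tent function supported in `(k + 2^(-j-1), k + 2^(-j))`. -/
noncomputable def bump (k j : ℕ) (t : ℝ) : ℝ := max 0 (1 - |2 ^ (j + 2) * (t - k) - 3|)

/-- The peak of the tent. -/
noncomputable def tau (k j : ℕ) : ℝ := k + 3 / 2 ^ (j + 2)

theorem bump_continuous (k j : ℕ) : Continuous (bump k j) := by
  unfold bump
  fun_prop

theorem bump_nonneg (k j : ℕ) (t : ℝ) : 0 ≤ bump k j t := le_max_left _ _

theorem bump_le_one (k j : ℕ) (t : ℝ) : bump k j t ≤ 1 :=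
  max_le zero_le_one (by linarith [abs_nonneg (2 ^ (j + 2) * (t - k) - 3 : ℝ)])

theorem bump_tau (k j : ℕ) : bump k j (tau k j) = 1 := by
  have : (2 : ℝ) ^ (j + 2) * (tau k j - k) - 3 = 0 := by
    unfold tau
    field_simp
    ring
  simp [bump, this]

theorem bump_ne_zero {k j : ℕ} {t : ℝ} (h : bump k j t ≠ 0) :
    1 < 2 ^ (j + 1) * (t - k) ∧ 2 ^ j * (t - k) < 1 := by
  have h1 : |2 ^ (j + 2) * (t - k) - 3| < 1 := by
    by_contra hcon
    exact h (max_eq_left (by linarith))
  rw [abs_lt] at h1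
  have h2 : (2 : ℝ) ^ (j + 2) = 2 * 2 ^ (j + 1) := by ring
  have h3 : (2 : ℝ) ^ (j + 2) = 4 * 2 ^ j := by ring
  constructor
  · have := h1.1
    rw [h2] at this
    linarith
  · have := h1.2
    rw [h3] at this
    linarith

theorem bump_range {k j : ℕ} {t : ℝ} (h : bump k j t ≠ 0) : k < t ∧ t < k + 1 := by
  obtain ⟨h1, h2⟩ := bump_ne_zero h
  have h3 : (0 : ℝ) < 2 ^ (j + 1) := by positivity
  have h4 : (1 : ℝ) ≤ 2 ^ j := one_le_pow₀ (by norm_num)
  have h5 : 0 < t - k := by
    by_contra hcon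
    nlinarith
  constructor
  · linarith
  · nlinarith

theorem bump_floor {k j : ℕ} {t : ℝ} (h : bump k j t ≠ 0) : ⌊t⌋₊ = k := by
  obtain ⟨h1, h2⟩ := bump_range h
  have h0 : (0 : ℝ) ≤ k := Nat.cast_nonneg k
  exact (Nat.floor_eq_iff (by linarith)).mpr ⟨h1.le, h2⟩

theorem bump_unique {k j k' j' : ℕ} {t : ℝ} (h : bump k j t ≠ 0) (h' : bump k' j' t ≠ 0) :
    k = k' ∧ j = j' := by
  have hk : k = k' := (bump_floor h).symm.trans (bump_floor h')
  subst hk
  refine ⟨rfl, ?_⟩
  have key : ∀ {j j' : ℕ}, bump k j t ≠ 0 → bump k j' t ≠ 0 → ¬ j < j' := by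
    intro j j' h h' hlt
    have h1 := (bump_ne_zero h).1
    have h2 := (bump_ne_zero h').2
    have h3 : (2 : ℝ) ^ (j + 1) ≤ 2 ^ j' := pow_le_pow_right₀ (by norm_num) hlt
    have h4 := (bump_range h).1
    nlinarith
  have := key h h'
  have := key h' h
  omega

theorem bump_tau_ne (k j : ℕ) : bump k j (tau k j) ≠ 0 := by
  rw [bump_tau]; exact one_ne_zero

theorem abs_tau_le (k j : ℕ) : |tau k j| ≤ k + 1 := by
  obtain ⟨h1, h2⟩ := bump_range (bump_tau_ne k j)
  have h0 : (0 : ℝ) ≤ k := Nat.cast_nonneg k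
  rw [abs_of_nonneg (by linarith)]
  exact h2.le

/-- The function with a tent of height `w k` at `tau k j` for every `k`. -/
noncomputable def tents (w : ℕ → ℝ) (j : ℕ) : C(ℝ, ℝ) where
  toFun t := w ⌊t⌋₊ * bump ⌊t⌋₊ j t
  continuous_toFun := by
    rw [continuous_iff_continuousAt]
    intro t₀
    obtain ⟨N, hN⟩ := exists_nat_gt t₀
    have h1 : Continuous fun t => ∑ k ∈ range N, w k * bump k j t :=
      continuous_finsetSum _ fun k _ => continuous_const.mul (bump_continuous k j)
    refine h1.continuousAt.congr ?_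
    filter_upwards [gt_mem_nhds hN] with t ht
    rw [sum_eq_single ⌊t⌋₊]
    · intro k _ hk
      by_cases hb : bump k j t = 0
      · simp [hb]
      · exact absurd (bump_floor hb).symm hk
    · intro hk
      by_cases hb : bump ⌊t⌋₊ j t = 0
      · simp [hb]
      · exfalso
        have h2 := (bump_range hb).1
        have h3 : (N : ℝ) ≤ ⌊t⌋₊ := by exact_mod_cast not_lt.mp (by simpa using hk)
        linarith

theorem tents_of_ne (w : ℕ → ℝ) (j : ℕ) {k j' : ℕ} {t : ℝ} (h : bump k j' t ≠ 0) :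
    tents w j t = (if j = j' then w k else 0) * bump k j' t := by
  change w ⌊t⌋₊ * bump ⌊t⌋₊ j t = _
  rw [bump_floor h]
  split_ifs with hj
  · rw [hj]
  · by_cases hb : bump k j t = 0
    · simp [hb]
    · exact absurd (bump_unique hb h).2 hj

theorem tents_of_zero (w : ℕ → ℝ) (j : ℕ) {t : ℝ} (h : ∀ k j', bump k j' t = 0) :
    tents w j t = 0 := by
  change w ⌊t⌋₊ * bump ⌊t⌋₊ j t = _
  simp [h]

theorem tents_tau (w : ℕ → ℝ) (j k j' : ℕ) :
    tents w j (tau k j') = if j = j' then w k else 0 := by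
  rw [tents_of_ne w j (bump_tau_ne k j'), bump_tau, mul_one]

end Pool.Agent.P.MP_708f28_lc
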