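import Mathlib

/-!
Definitions for the statements on the set of separable Fréchet spaces with a Schauder basis.
-/

namespace Pool.Agent.P.MP_708f28_lc

open Filter Topology

/-- The closed vector subspaces of `C(ℝ)` (compact-open topology, i.e. uniform convergence on
compact sets). -/
abbrev SF : Type := {X : Submodule ℝ C(ℝ, ℝ) // IsClosed (X : Set C(ℝ, ℝ))}

/-- The Effros Borel structure on `SF`. -/
@[reducible] def effros : MeasurableSpace SF :=
  MeasurableSpace.generateFrom
    {S | ∃ U : Set C(ℝ, ℝ), IsOpen U ∧ S = {X : SF | ((X.1 : Set C(ℝ, ℝ)) ∩ U).Nonempty}}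

/-- `X` is finite-dimensional or has a Schauder basis. -/
def HasSchauderBasis (X : Submodule ℝ C(ℝ, ℝ)) : Prop :=
  FiniteDimensional ℝ X ∨
    ∃ e : ℕ → C(ℝ, ℝ), (∀ n, e n ∈ X) ∧ ∀ x ∈ X, ∃! a : ℕ → ℝ,
      Tendsto (fun N => ∑ n ∈ Finset.range N, a n • e n) atTop (𝓝 x)

/-- The members of `SF` with a Schauder basis. -/
def SFb : Set SF := {X | HasSchauderBasis X.1}

end Pool.Agent.P.MP_708f28_lc
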