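import Mathlib

/-!
Abstract facts on spaces whose topology is given by an increasing sequence of seminorms:
equicontinuity of the partial sum operators of a Schauder basis in a Baire space.
-/

set_option linter.unusedSectionVars false

namespace Pool.Agent.P.MP_708f28_lc

open Filter Topology Finset

variable {E : Type*} [AddCommGroup E] [Module ℝ E] [TopologicalSpace E]

/-- The topology of `E` is Hausdorff and given by the increasing sequence of seminorms `p`. -/
structure Sys (p : ℕ → Seminorm ℝ E) : Prop where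
  mono : ∀ k l, k ≤ l → ∀ x, p k x ≤ p l x
  nhds : ∀ (x : E) (U : Set E), U ∈ 𝓝 x ↔ ∃ k, ∃ ε > 0, ∀ y, p k (y - x) < ε → y ∈ U
  sep : ∀ x, (∀ k, p k x = 0) → x = 0

variable {p : ℕ → Seminorm ℝ E}

theorem Sys.ball_mem (h : Sys p) (k : ℕ) (x : E) {ε : ℝ} (hε : 0 < ε) :
    {y | p k (y - x) < ε} ∈ 𝓝 x :=
  (h.nhds x _).mpr ⟨k, ε, hε, fun _ hy => hy⟩

theorem Sys.tendsto_iff (h : Sys p) {ι : Type*} {l : Filter ι} {u : ι → E} {x : E} :
    Tendsto u l (𝓝 x) ↔ ∀ k, ∀ ε > 0, ∀ᶠ i in l, p k (u i - x) < ε := by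
  constructor
  · intro H k ε hε
    exact H (h.ball_mem k x hε)
  · intro H U hU
    obtain ⟨k, ε, hε, hk⟩ := (h.nhds x U).mp hU
    exact (H k ε hε).mono fun i hi => hk _ hi

theorem Sys.continuous (h : Sys p) (k : ℕ) : Continuous (p k) := by
  rw [continuous_iff_continuousAt]
  intro x
  rw [ContinuousAt, Metric.tendsto_nhds]
  intro ε hε
  filter_upwards [h.ball_mem k x hε] with y hy
  rw [Real.dist_eq]
  exact (abs_sub_map_le_sub (p k) y x).trans_lt hy

theorem Sys.mem_closure_iff (h : Sys p) {s : Set E} {x : E} :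
    x ∈ closure s ↔ ∀ k, ∀ ε > 0, ∃ y ∈ s, p k (y - x) < ε := by
  rw [mem_closure_iff_nhds]
  constructor
  · intro H k ε hε
    obtain ⟨y, hy1, hy2⟩ := H _ (h.ball_mem k x hε)
    exact ⟨y, hy2, hy1⟩
  · intro H U hU
    obtain ⟨k, ε, hε, hk⟩ := (h.nhds x U).mp hU
    obtain ⟨y, hy1, hy2⟩ := H k ε hε
    exact ⟨y, hk y hy2, hy1⟩

theorem Sys.continuous_of_bound (h : Sys p) (f : E →ₗ[ℝ] ℝ) (k : ℕ) (C : ℝ)
    (hf : ∀ x, |f x| ≤ C * p k x) : Continuous f := by
  rw [continuous_iff_continuousAt]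
  intro x
  rw [ContinuousAt, Metric.tendsto_nhds]
  intro ε hε
  have hC : 0 < |C| + 1 := by positivity
  filter_upwards [h.ball_mem k x (div_pos hε hC)] with y hy
  rw [Real.dist_eq, ← map_sub]
  refine (hf _).trans_lt ?_
  have h1 : p k (y - x) * (|C| + 1) < ε := (lt_div_iff₀ hC).mp hy
  have h2 : 0 ≤ p k (y - x) := apply_nonneg _ _
  nlinarith [le_abs_self C]

/-- Restriction of a seminorm system to a submodule. -/
theorem Sys.restrict (h : Sys p) (X : Submodule ℝ E) :
    Sys (fun k => (p k).comp X.subtype) where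
  mono k l hkl x := h.mono k l hkl x
  nhds x U := by
    rw [mem_nhds_subtype]
    constructor
    · rintro ⟨V, hV, hVU⟩
      obtain ⟨k, ε, hε, hk⟩ := (h.nhds _ V).mp hV
      exact ⟨k, ε, hε, fun y hy => hVU (hk y hy)⟩
    · rintro ⟨k, ε, hε, hk⟩
      exact ⟨_, h.ball_mem k x hε, fun y hy => hk y hy⟩
  sep x hx := Subtype.ext (h.sep x hx)

/-- Partial sum operator. -/
noncomputable def psum (e : ℕ → E) (a : ℕ → E →ₗ[ℝ] ℝ) (N : ℕ) : E →ₗ[ℝ] E :=
  ∑ n ∈ range N, (a n).smulRight (e n)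

theorem psum_apply (e : ℕ → E) (a : ℕ → E →ₗ[ℝ] ℝ) (N : ℕ) (x : E) :
    psum e a N x = ∑ n ∈ range N, a n x • e n := by
  simp [psum, LinearMap.sum_apply]

variable [IsTopologicalAddGroup E] [ContinuousSMul ℝ E]

/-- Coefficient functionals of a Schauder basis. -/
theorem exists_coef (e : ℕ → E)
    (hb : ∀ x, ∃! a : ℕ → ℝ, Tendsto (fun N => ∑ n ∈ range N, a n • e n) atTop (𝓝 x)) :
    ∃ a : ℕ → E →ₗ[ℝ] ℝ, (∀ x, Tendsto (fun N => psum e a N x) atTop (𝓝 x)) ∧
      ∀ (c : ℕ → ℝ) (x : E), Tendsto (fun N => ∑ n ∈ range N, c n • e n) atTop (𝓝 x) →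
        ∀ n, a n x = c n := by
  choose c hc hu using hb
  have hadd : ∀ x y, c (x + y) = c x + c y := by
    intro x y
    refine (hu (x + y) _ ?_).symm
    simpa [add_smul, sum_add_distrib] using (hc x).add (hc y)
  have hsmul : ∀ (t : ℝ) x, c (t • x) = t • c x := by
    intro t x
    refine (hu (t • x) _ ?_).symm
    simpa [mul_smul, smul_sum] using (hc x).const_smul t
  refine ⟨fun n => ⟨⟨fun x => c x n, fun x y => by simp [hadd]⟩, fun t x => by simp [hsmul]⟩,
    fun x => ?_, fun d x hd n => ?_⟩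
  · simpa [psum_apply] using hc x
  · simp [hu x d hd]

theorem baire_step [BaireSpace E] (h : Sys p) (S : ℕ → E →ₗ[ℝ] E)
    (hS : ∀ x, Tendsto (fun N => S N x) atTop (𝓝 x)) (k : ℕ) :
    ∃ l, ∃ δ > 0, ∀ ε > 0, ∀ x, p l x < δ * ε → ∀ l', ∀ η > 0,
      ∃ y, (∀ N, p k (S N y) ≤ ε) ∧ p l' (x - y) < η := by
  have hcov : ⋃ r : ℕ, closure {x | ∀ N, p k (S N x) ≤ r} = Set.univ := by
    rw [Set.eq_univ_iff_forall]
    intro x
    obtain ⟨M, hM⟩ := (((h.continuous k).tendsto x).comp (hS x)).bddAbove_range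
    obtain ⟨r, hr⟩ := exists_nat_ge M
    exact Set.mem_iUnion.mpr ⟨r, subset_closure fun N => (hM ⟨N, rfl⟩).trans hr⟩
  obtain ⟨r, x₀, hx₀⟩ := nonempty_interior_of_iUnion_of_closed (fun _ => isClosed_closure) hcov
  obtain ⟨l, δ, hδ, hl⟩ := (h.nhds x₀ _).mp (mem_interior_iff_mem_nhds.mp hx₀)
  have hr : (0 : ℝ) < 2 * r + 1 := by positivity
  refine ⟨l, δ / (2 * r + 1), div_pos hδ hr, fun ε hε x hx l' η hη => ?_⟩
  set t : ℝ := ε / (2 * r + 1) with ht
  have ht0 : 0 < t := div_pos hε hr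
  have h1 : p l (t⁻¹ • x + x₀ - x₀) < δ := by
    rw [add_sub_cancel_right, map_smul_eq_mul, Real.norm_eq_abs, abs_of_pos (inv_pos.mpr ht0),
      inv_mul_lt_iff₀ ht0]
    refine hx.trans_eq ?_
    rw [ht]; ring
  have h2 : p l (x₀ - x₀) < δ := by simpa using hδ
  have hη' : 0 < η / (2 * t) := by positivity
  obtain ⟨y₁, hy₁, hy₁'⟩ := h.mem_closure_iff.mp (hl _ h1) l' _ hη'
  obtain ⟨y₂, hy₂, hy₂'⟩ := h.mem_closure_iff.mp (hl _ h2) l' _ hη'
  refine ⟨t • (y₁ - y₂), fun N => ?_, ?_⟩
  · rw [map_smul, map_sub, map_smul_eq_mul, Real.norm_eq_abs, abs_of_pos ht0]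
    have h3 := map_sub_le_add (p k) (S N y₁) (S N y₂)
    have h4 := hy₁ N
    have h5 := hy₂ N
    have h6 : t * (2 * r + 1) = ε := by rw [ht]; field_simp
    nlinarith
  · have h3 : x - t • (y₁ - y₂) = t • ((y₂ - x₀) - (y₁ - (t⁻¹ • x + x₀))) := by
      have : t • (t⁻¹ • x) = x := by rw [smul_smul, mul_inv_cancel₀ ht0.ne', one_smul]
      simp only [smul_sub, smul_add, this]
      abel
    rw [h3, map_smul_eq_mul, Real.norm_eq_abs, abs_of_pos ht0]
    have h4 := map_sub_le_add (p l') (y₂ - x₀) (y₁ - (t⁻¹ • x + x₀))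
    have h5 : t * (η / (2 * t) + η / (2 * t)) = η := by field_simp; ring
    nlinarith

theorem geom_tail (I J : ℕ) : ∑ i ∈ Ico I J, (1 / 2 : ℝ) ^ i ≤ 2 * (1 / 2) ^ I := by
  rcases le_total I J with hIJ | hIJ
  · have key : ∀ J, I ≤ J →
        ∑ i ∈ Ico I J, (1 / 2 : ℝ) ^ i = 2 * (1 / 2) ^ I - 2 * (1 / 2) ^ J := by
      intro J hJ
      induction J, hJ using Nat.le_induction with
      | base => simp
      | succ J hJ ih => rw [sum_Ico_succ_top hJ, ih, pow_succ]; ring
    rw [key _ hIJ]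
    have : (0 : ℝ) ≤ (1 / 2) ^ J := by positivity
    linarith
  · rw [Ico_eq_empty_of_le hIJ]
    simp

/-- The partial sum operators of a Schauder basis of a Baire space are equicontinuous. -/
theorem equicontinuous_psum [BaireSpace E] (h : Sys p) (e : ℕ → E) (a : ℕ → E →ₗ[ℝ] ℝ)
    (hS : ∀ x, Tendsto (fun N => psum e a N x) atTop (𝓝 x))
    (hu : ∀ (c : ℕ → ℝ) (x : E), Tendsto (fun N => ∑ n ∈ range N, c n • e n) atTop (𝓝 x) →
        ∀ n, a n x = c n) (he : ∀ n, e n ≠ 0) (k : ℕ) :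
    ∃ l, ∃ C : ℝ, 0 < C ∧ ∀ x N, p k (psum e a N x) ≤ C * p l x := by
  choose l δ hδ H using baire_step h (psum e a) hS
  have main : ∀ x, p (l k) x < δ k → ∀ N, p k (psum e a N x) ≤ 2 := by
    intro x hx
    have step : ∀ (i : ℕ) (r : E), p (l (k + i)) r < δ (k + i) * (1 / 2) ^ i →
        ∃ y, (∀ N, p (k + i) (psum e a N y) ≤ (1 / 2) ^ i) ∧
          p (l (k + (i + 1))) (r - y) < δ (k + (i + 1)) * (1 / 2) ^ (i + 1) ∧
          p i (r - y) < (1 / 2) ^ i := by
      intro i r hr
      have hη : 0 < min (δ (k + (i + 1)) * (1 / 2) ^ (i + 1)) ((1 / 2 : ℝ) ^ i) :=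
        lt_min (mul_pos (hδ _) (by positivity)) (by positivity)
      obtain ⟨y, hy1, hy2⟩ := H (k + i) _ (by positivity) r hr (max (l (k + (i + 1))) i) _ hη
      exact ⟨y, hy1, ((h.mono _ _ (le_max_left _ _) _).trans_lt hy2).trans_le (min_le_left _ _),
        ((h.mono _ _ (le_max_right _ _) _).trans_lt hy2).trans_le (min_le_right _ _)⟩
    choose! Y hY1 hY2 hY3 using step
    let r : ℕ → E := fun i => Nat.rec x (fun i r => r - Y i r) i
    have hr0 : r 0 = x := rfl
    have hrs : ∀ i, r (i + 1) = r i - Y i (r i) := fun i => rfl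
    have hinv : ∀ i, p (l (k + i)) (r i) < δ (k + i) * (1 / 2) ^ i := by
      intro i
      induction i with
      | zero => simpa [hr0] using hx
      | succ i ih => rw [hrs]; exact hY2 i _ ih
    set y : ℕ → E := fun i => Y i (r i) with hy
    have hy1 : ∀ i N, p (k + i) (psum e a N (y i)) ≤ (1 / 2) ^ i := fun i => hY1 i _ (hinv i)
    have hy3 : ∀ i, p i (r (i + 1)) < (1 / 2) ^ i := fun i => hY3 i _ (hinv i)
    have hz : ∀ I, ∑ i ∈ range I, y i = x - r I := by
      intro I
      induction I with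
      | zero => simp [hr0]
      | succ I ih => rw [sum_range_succ, ih, hrs]; simp only [hy]; abel
    have hsum : ∀ n, Summable fun i => a n (y i) := by
      intro n
      obtain ⟨j, hj⟩ : ∃ j, p j (e n) ≠ 0 := by
        by_contra hcon
        push Not at hcon
        exact he n (h.sep _ hcon)
      have hj0 : 0 < p j (e n) := lt_of_le_of_ne (apply_nonneg _ _) hj.symm
      refine Summable.of_norm_bounded_eventually_nat
        (g := fun i => (2 / p j (e n)) * (1 / 2) ^ i) (summable_geometric_two.mul_left _) ?_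
      filter_upwards [eventually_ge_atTop j] with i hi
      have h1 : a n (y i) • e n = psum e a (n + 1) (y i) - psum e a n (y i) := by
        rw [psum_apply, psum_apply, sum_range_succ]; abel
      have h2 : p j (a n (y i) • e n) ≤ 2 * (1 / 2) ^ i := by
        refine (h.mono j (k + i) (by omega) _).trans ?_
        rw [h1]
        have := map_sub_le_add (p (k + i)) (psum e a (n + 1) (y i)) (psum e a n (y i))
        linarith [hy1 i (n + 1), hy1 i n]
      rw [map_smul_eq_mul] at h2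
      rw [div_mul_eq_mul_div, le_div_iff₀ hj0]
      exact h2
    set c : ℕ → ℝ := fun n => ∑' i, a n (y i) with hc
    have hlim : ∀ N, Tendsto (fun I => psum e a N (∑ i ∈ range I, y i)) atTop
        (𝓝 (∑ n ∈ range N, c n • e n)) := by
      intro N
      simp only [psum_apply]
      refine tendsto_finsetSum _ fun n _ => ?_
      simp only [map_sum]
      exact ((hsum n).hasSum.tendsto_sum_nat).smul_const _
    have htail : ∀ j I N, j ≤ k + I →
        p j (∑ n ∈ range N, c n • e n - psum e a N (∑ i ∈ range I, y i)) ≤ 2 * (1 / 2) ^ I := by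
      intro j I N hj
      have h1 := ((h.continuous j).tendsto _).comp
        ((hlim N).sub_const (psum e a N (∑ i ∈ range I, y i)))
      refine le_of_tendsto h1 ?_
      filter_upwards [eventually_ge_atTop I] with J hJ
      have h2 : psum e a N (∑ i ∈ range J, y i) - psum e a N (∑ i ∈ range I, y i)
          = ∑ i ∈ Ico I J, psum e a N (y i) := by
        rw [← map_sub, ← map_sum, sum_Ico_eq_sub _ hJ]
      simp only [Function.comp, h2]
      refine (le_sum_of_subadditive (p j) (map_zero _).le (map_add_le_add _) _ _).trans ?_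
      refine le_trans (sum_le_sum fun i hi => ?_) (geom_tail I J)
      exact (h.mono j (k + i) (by have := (mem_Ico.mp hi).1; omega) _).trans (hy1 i N)
    have hconv : Tendsto (fun N => ∑ n ∈ range N, c n • e n) atTop (𝓝 x) := by
      rw [h.tendsto_iff]
      intro j ε hε
      obtain ⟨I, hI1, hI2⟩ : ∃ I, j ≤ I ∧ (1 / 2 : ℝ) ^ I < ε / 4 := by
        have := (tendsto_pow_atTop_nhds_zero_of_lt_one (r := (1 / 2 : ℝ)) (by norm_num)
          (by norm_num)).eventually (gt_mem_nhds (show (0 : ℝ) < ε / 4 by positivity))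
        exact ((eventually_ge_atTop j).and this).exists
      filter_upwards [h.tendsto_iff.mp (hS (∑ i ∈ range (I + 1), y i)) j (ε / 4) (by positivity)]
        with N hN
      have h1 := htail j (I + 1) N (by omega)
      have h2 : p j (r (I + 1)) < (1 / 2) ^ I := (h.mono j I hI1 _).trans_lt (hy3 I)
      set z := ∑ i ∈ range (I + 1), y i with hzdef
      have h3 : ∑ n ∈ range N, c n • e n - x
          = (∑ n ∈ range N, c n • e n - psum e a N z) + (psum e a N z - z) - r (I + 1) := by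
        have := hz (I + 1)
        rw [← hzdef] at this
        rw [this]; abel
      rw [h3]
      have h4 := map_sub_le_add (p j)
        ((∑ n ∈ range N, c n • e n - psum e a N z) + (psum e a N z - z)) (r (I + 1))
      have h5 := map_add_le_add (p j) (∑ n ∈ range N, c n • e n - psum e a N z) (psum e a N z - z)
      rw [pow_succ] at h1
      linarith
    intro N
    have h1 := htail k 0 N le_rfl
    have h2 : psum e a N x = ∑ n ∈ range N, c n • e n := by
      rw [psum_apply]
      exact sum_congr rfl fun n _ => by rw [hu c x hconv n]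
    rw [h2]
    simpa using h1
  refine ⟨l k, 2 / δ k, div_pos two_pos (hδ k), fun x N => ?_⟩
  refine le_of_forall_gt_imp_ge_of_dense fun t ht => ?_
  have hp0 : 0 ≤ p (l k) x := apply_nonneg _ _
  have hδk := hδ k
  have ht0 : 0 < t := lt_of_le_of_lt (by positivity) ht
  have h1 : p (l k) ((2 / t) • x) < δ k := by
    rw [map_smul_eq_mul, Real.norm_eq_abs, abs_of_pos (by positivity)]
    rw [div_mul_eq_mul_div, div_lt_iff₀ ht0]
    rw [div_mul_eq_mul_div, div_lt_iff₀ hδk] at ht
    linarith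
  have h2 := main _ h1 N
  rw [map_smul, map_smul_eq_mul, Real.norm_eq_abs, abs_of_pos (by positivity),
    div_mul_eq_mul_div, div_le_iff₀ ht0] at h2
  linarith

end Pool.Agent.P.MP_708f28_lc
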