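import Pool.Agent.P.MP_708f28_lc.Model
import Pool.Agent.P.MP_708f28_lc.Defs

/-!
If one function `σ` jumps over some regime of every block of `A`, the model space has a basis.
-/

namespace Pool.Agent.P.MP_708f28_lc

open Filter Topology Finset

theorem om_jump {β : Blk} {k l i₀ : ℕ} (hkl : k ≤ l) (h : rho β k = i₀ → i₀ < rho β l) (i : ℕ) :
    om k (β, i₀) ≤ om l (β, i) := by
  refine pow_le_pow_right₀ (one_le_WW _) ?_
  have h1 := rho_mono β hkl
  have h2 : (rho β k + if i₀ = rho β k then 1 else 0)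
      ≤ rho β l + if i = rho β l then 1 else 0 := by
    by_cases h3 : i₀ = rho β k
    · have := h h3.symm
      rw [if_pos h3]
      omega
    · rw [if_neg h3]
      omega
  have h3 := Nat.mul_le_mul_left β.2.2 h2
  simp only [ex]
  omega

theorem hasBasis_of_jump (A : Set Blk) (σ : ℕ → ℕ) (hσ : ∀ k, k ≤ σ k)
    (hA : ∀ β ∈ A, ∃ i₀, i₀ ≤ β.1 ∧ ∀ k, rho β k = i₀ → i₀ < rho β (σ k)) :
    HasSchauderBasis (XX A) := by
  classical
  choose! i₀ hi₀ hjump using hA
  set I : Set (Blk × ℕ) := {ν | ν.1 ∈ A ∧ ν.2 ≤ ν.1.1 ∧ ν.2 ≠ i₀ ν.1} with hI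
  set e : Blk × ℕ → C(ℝ, ℝ) := fun ν => uu ν.1 ν.2 (i₀ ν.1) with he
  have hemem : ∀ ν ∈ I, e ν ∈ XX A := fun ν hν => uu_mem hν.1 hν.2.1 (hi₀ _ hν.1)
  have hbio : ∀ μ ∈ I, ∀ ν, yy μ (e ν) = if ν = μ then 1 else 0 := by
    intro μ hμ ν
    have : (ν.1, i₀ ν.1) ≠ μ := by
      rintro rfl
      exact hμ.2.2 rfl
    simp only [he, yy_uu, if_neg this, sub_zero]
  have hrem : ∀ f ∈ XX A, ∀ (S : Finset (Blk × ℕ)) (N k : ℕ), (∀ ν ∈ S, ν ∈ I) →
      (∀ ν ∈ I, enc ν < N → ν ∈ S) →
      pp k (∑ ν ∈ S, yy ν f • e ν - f) ≤ (1 / 2) ^ N * pp (σ k + 1) f := by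
    intro f hf S N k hS hN
    set r := ∑ ν ∈ S, yy ν f • e ν - f with hr
    have hrmem : r ∈ XX A :=
      (XX A).sub_mem ((XX A).sum_mem fun ν hν => (XX A).smul_mem _ (hemem ν (hS ν hν))) hf
    set c := (1 / 2) ^ N * pp (σ k + 1) f with hc
    have hp : 0 ≤ pp (σ k + 1) f := apply_nonneg _ _
    have hc0 : 0 ≤ c := by positivity
    have hyr : ∀ μ ∈ I, yy μ r = if μ ∈ S then 0 else - yy μ f := by
      intro μ hμ
      simp only [hr, map_sub, map_sum, map_smul, hbio μ hμ, smul_eq_mul, mul_ite, mul_one,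
        mul_zero, sum_ite_eq']
      split_ifs <;> simp
    have ha : ∀ μ ∈ I, ((μ.1.1 : ℝ) + 1) * (om (σ k) μ * |yy μ r|) ≤ c := by
      intro μ hμ
      rw [hyr μ hμ]
      split_ifs with h
      · simpa using hc0
      · have h2 : N ≤ enc μ := by
          by_contra hcon
          exact h (hN μ hμ (not_le.mp hcon))
        have h3 : ((μ.1.1 : ℝ) + 1) * 2 ^ N ≤ WW μ.1 := by
          refine le_trans ?_ (WW_ge μ.1 hμ.2.1)
          have h4 : (2 : ℝ) ^ N ≤ 2 ^ enc μ := pow_le_pow_right₀ (by norm_num) h2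
          gcongr
        have h4 := om_yy_le hf (σ k + 1) μ
        have h5 := om_succ (σ k) μ
        have h6 := abs_nonneg (yy μ f)
        have h7 := (om_pos (σ k) μ).le
        have h8 : om (σ k) μ * (((μ.1.1 : ℝ) + 1) * 2 ^ N) * |yy μ f| ≤ pp (σ k + 1) f := by
          refine le_trans ?_ h4
          gcongr
          exact le_trans (by gcongr) h5
        rw [abs_neg, hc, one_div, inv_pow, inv_mul_eq_div, le_div_iff₀ (by positivity)]
        linarith
    refine pp_le_of_yy hrmem k hc0 fun ν => ?_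
    by_cases h1 : ν.1 ∉ A ∨ ν.1.1 < ν.2
    · rw [yy_eq_zero hrmem h1]
      simpa using hc0
    push Not at h1
    by_cases h2 : ν.2 = i₀ ν.1
    · obtain ⟨β, i⟩ := ν
      simp only at h1 h2
      subst h2
      have h3 := sum_yy hrmem β
      rw [← add_sum_erase _ _ (mem_range.mpr (Nat.lt_succ_of_le h1.2))] at h3
      have h4 : yy (β, i₀ β) r = - ∑ i ∈ (range (β.1 + 1)).erase (i₀ β), yy (β, i) r := by
        linarith
      have hm : (0 : ℝ) < (β.1 : ℝ) + 1 := by positivity
      have h5 : ∀ i ∈ (range (β.1 + 1)).erase (i₀ β),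
          om k (β, i₀ β) * |yy (β, i) r| ≤ c / ((β.1 : ℝ) + 1) := by
        intro i hi
        obtain ⟨hi1, hi2⟩ := mem_erase.mp hi
        have h6 := ha (β, i) ⟨h1.1, Nat.lt_succ_iff.mp (mem_range.mp hi2), hi1⟩
        have h7 := om_jump (hσ k) (hjump β h1.1 k) i
        rw [le_div_iff₀ hm]
        have h8 := abs_nonneg (yy (β, i) r)
        calc _ ≤ om (σ k) (β, i) * |yy (β, i) r| * ((β.1 : ℝ) + 1) := by gcongr
          _ ≤ c := by simp only at h6; linarith
      rw [h4, abs_neg]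
      calc _ ≤ om k (β, i₀ β) * ∑ i ∈ (range (β.1 + 1)).erase (i₀ β), |yy (β, i) r| :=
            mul_le_mul_of_nonneg_left (abs_sum_le_sum_abs _ _) (om_pos _ _).le
        _ ≤ ∑ _i ∈ (range (β.1 + 1)).erase (i₀ β), c / ((β.1 : ℝ) + 1) := by
            rw [mul_sum]; exact sum_le_sum h5
        _ ≤ ∑ _i ∈ range (β.1 + 1), c / ((β.1 : ℝ) + 1) :=
            sum_le_sum_of_subset_of_nonneg (erase_subset _ _) fun _ _ _ => by positivity
        _ = c := by
            rw [sum_const, card_range, nsmul_eq_mul]; push_cast; field_simp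
    · have h3 := ha ν ⟨h1.1, h1.2, h2⟩
      have h4 := om_mono (hσ k) ν
      have h5 := abs_nonneg (yy ν r)
      have h6 : 0 ≤ om (σ k) ν * |yy ν r| := mul_nonneg (om_pos _ _).le h5
      have h7 : (0 : ℝ) ≤ ν.1.1 := Nat.cast_nonneg _
      calc _ ≤ om (σ k) ν * |yy ν r| := by gcongr
        _ ≤ c := by nlinarith
  have hgeo : ∀ c : ℝ, Tendsto (fun N : ℕ => (1 / 2 : ℝ) ^ N * c) atTop (𝓝 0) := by
    intro c
    simpa using (tendsto_pow_atTop_nhds_zero_of_lt_one (r := (1 / 2 : ℝ)) (by norm_num)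
      (by norm_num)).mul_const c
  by_cases hfin : I.Finite
  · left
    have h1 : XX A ≤ Submodule.span ℝ (e '' I) := by
      intro f hf
      have hmem : ∑ ν ∈ hfin.toFinset, yy ν f • e ν - f ∈ XX A :=
        (XX A).sub_mem ((XX A).sum_mem fun ν hν =>
          (XX A).smul_mem _ (hemem ν (hfin.mem_toFinset.mp hν))) hf
      have h2 : pp 0 (∑ ν ∈ hfin.toFinset, yy ν f • e ν - f) ≤ 0 :=
        ge_of_tendsto' (hgeo _) fun N => hrem f hf _ N 0 (fun ν hν => hfin.mem_toFinset.mp hν)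
          fun ν hν _ => hfin.mem_toFinset.mpr hν
      have h3 := eq_zero_of_pp hmem (le_antisymm h2 (apply_nonneg _ _))
      rw [← sub_eq_zero.mp h3]
      exact Submodule.sum_mem _ fun ν hν => Submodule.smul_mem _ _
        (Submodule.subset_span ⟨ν, hfin.mem_toFinset.mp hν, rfl⟩)
    have := FiniteDimensional.span_of_finite ℝ (hfin.image e)
    exact Submodule.finiteDimensional_of_le h1
  · right
    have : Infinite I := Set.infinite_coe_iff.mpr hfin
    obtain ⟨φ⟩ : Nonempty (ℕ ≃ I) := nonempty_equiv_of_countable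
    have hinj : Function.Injective fun n => (φ n : Blk × ℕ) :=
      Subtype.val_injective.comp φ.injective
    refine ⟨fun n => e (φ n), fun n => hemem _ (φ n).2, fun f hf =>
      ⟨fun n => yy (φ n) f, ?_, fun c hc => ?_⟩⟩
    · refine sys_pp.tendsto_iff.mpr fun k ε hε => ?_
      obtain ⟨N, hN⟩ := ((hgeo (pp (σ k + 1) f)).eventually (gt_mem_nhds hε)).exists
      have hfin2 : {n | enc (φ n) < N}.Finite :=
        (Set.finite_lt_nat N).preimage (enc.injective.comp hinj).injOn
      obtain ⟨M₀, hM₀⟩ := hfin2.bddAbove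
      filter_upwards [eventually_gt_atTop M₀] with M hM
      refine lt_of_le_of_lt ?_ hN
      have h1 := hrem f hf ((range M).map ⟨_, hinj⟩) N k (by
        intro ν hν
        obtain ⟨n, -, rfl⟩ := mem_map.mp hν
        exact (φ n).2) (by
        intro ν hν hlt
        obtain ⟨n, hn⟩ := φ.surjective ⟨ν, hν⟩
        have h2 : (φ n : Blk × ℕ) = ν := by rw [hn]
        refine mem_map.mpr ⟨n, mem_range.mpr (lt_of_le_of_lt (hM₀ ?_) hM), h2⟩
        simpa [h2] using hlt)
      rw [sum_map] at h1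
      exact h1
    · funext n
      have h1 := ((yy (φ n)).continuous.tendsto f).comp hc
      have h2 : Tendsto (yy (φ n) ∘ fun N => ∑ i ∈ range N, c i • e (φ i)) atTop (𝓝 (c n)) := by
        refine tendsto_const_nhds.congr' ?_
        filter_upwards [eventually_gt_atTop n] with N hN
        simp only [Function.comp, map_sum, map_smul, hbio _ (φ n).2, smul_eq_mul]
        rw [sum_eq_single n]
        · simp
        · intro i _ hi
          rw [if_neg (fun h => hi (hinj h)), mul_zero]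
        · intro h
          exact absurd (mem_range.mpr hN) h
      exact tendsto_nhds_unique h2 h1

end Pool.Agent.P.MP_708f28_lc
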