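import Pool.Agent.P.MP_708f28_lc.Model
import Pool.Agent.P.MP_708f28_lc.Defs

/-!
If the model space has a basis, the modulus of absolute convergence of the basis yields a
sequence `b` none of whose initial segments of length at least two gives blocks of `A`.
-/

namespace Pool.Agent.P.MP_708f28_lc

open Filter Topology Finset

/-- The block with data `b 0, …, b (m-1)`. -/
def blk (m : ℕ) (b : ℕ → ℕ) (n : ℕ) : Blk := (m, (List.range m).map b, n)

theorem bb_blk {m : ℕ} (b : ℕ → ℕ) (n : ℕ) {i : ℕ} (hi : i < m) : bb (blk m b n) i = b i := by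
  simp [bb, blk, List.getD_eq_getElem?_getD, hi]

theorem rho_blk {m : ℕ} {b : ℕ → ℕ} (n : ℕ) {i k : ℕ} (hi : i ≤ m) (h1 : k ≤ b i)
    (h2 : ∀ j < i, b j < k) : rho (blk m b n) k = i := by
  rw [rho_eq_iff]
  refine ⟨?_, fun j hj => ⟨lt_of_lt_of_le hj hi, ?_⟩⟩
  · rcases hi.lt_or_eq with h | h
    · exact Or.inr (by rw [bb_blk b n h]; exact h1)
    · exact Or.inl h.ge
  · rw [bb_blk b n (lt_of_lt_of_le hj hi)]
    exact h2 j hj

theorem rank_one_ineq {m : ℕ} (hm : 2 ≤ m) (v : ℕ → ℝ) (hv : ∑ i ∈ range (m + 1), v i = 0)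
    (s t : ℝ) :
    |t - s| * |v 0| ≤
      2 * ∑ i ∈ range (m + 1), |if i = 0 then s else if i = 1 then t else t - s| * |v i| := by
  obtain ⟨m, rfl⟩ : ∃ m', m = m' + 1 := ⟨m - 1, by omega⟩
  rw [sum_range_succ', sum_range_succ'] at hv ⊢
  simp only [Nat.add_eq_zero_iff, one_ne_zero, and_false, if_false, Nat.add_eq_right, if_true,
    zero_add] at hv ⊢
  rw [← mul_sum]
  have h1 : |v 0| ≤ |v 1| + ∑ i ∈ range m, |v (i + 1 + 1)| := by
    have h2 : v 0 = -(v 1 + ∑ i ∈ range m, v (i + 1 + 1)) := by linarith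
    rw [h2, abs_neg]
    exact (abs_add_le _ _).trans (add_le_add le_rfl (abs_sum_le_sum_abs _ _))
  have h2 : |t - s| ≤ |t| + |s| := abs_sub t s
  have h3 : 0 ≤ ∑ i ∈ range m, |v (i + 1 + 1)| := sum_nonneg fun _ _ => abs_nonneg _
  have h4 := abs_nonneg (t - s)
  have h5 := abs_nonneg (v 0)
  have h6 := abs_nonneg (v 1)
  have h7 := abs_nonneg s
  have h8 := abs_nonneg t
  rcases le_total |t| |s| with h | h
  · have : |t - s| * |v 0| ≤ 2 * |s| * |v 0| := by gcongr; linarith
    nlinarith [mul_nonneg h4 h3, mul_nonneg h8 h6]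
  · have h9 : |t - s| * |v 0| ≤ |t - s| * (|v 1| + ∑ i ∈ range m, |v (i + 1 + 1)|) := by gcongr
    have h10 : |t - s| * |v 1| ≤ 2 * |t| * |v 1| := by gcongr; linarith
    nlinarith [mul_nonneg h4 h3, mul_nonneg h7 h5]

theorem exists_seq_of_hasBasis (A : Set Blk) (h : HasSchauderBasis (XX A)) :
    ∃ b : ℕ → ℕ, (∀ i, i ≤ b i) ∧ ∀ m, 2 ≤ m → ¬ ∀ n, blk m b n ∈ A := by
  classical
  rcases h with h | ⟨e₀, he₀, hb₀⟩
  · refine ⟨id, fun _ => le_rfl, fun m hm hA => ?_⟩
    let v : ℕ → XX A := fun n =>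
      ⟨uu (blk m id n) 0 1, uu_mem (hA n) (Nat.zero_le _) (by change 1 ≤ m; omega)⟩
    have hli : LinearIndependent ℝ v := by
      rw [linearIndependent_iff']
      intro s g hg n hn
      have h1 := congrArg (fun x : XX A => yy (blk m id n, 0) x) hg
      simp only [Submodule.coe_sum, Submodule.coe_smul, map_sum, map_smul, v, yy_uu,
        Submodule.coe_zero, map_zero, smul_eq_mul] at h1
      rw [sum_eq_single n] at h1
      · simpa using h1
      · intro i _ hi
        have : blk m id i ≠ blk m id n := fun h => hi (congrArg (fun β : Blk => β.2.2) h)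
        simp [this]
      · intro h
        exact absurd hn h
    exact Module.Finite.not_linearIndependent_of_infinite v hli
  have := (XX_closed A).isCompletelyMetrizableSpace
  set p : ℕ → Seminorm ℝ (XX A) := fun k => (pp k).comp (XX A).subtype with hp
  have hsys : Sys p := sys_pp.restrict (XX A)
  set e : ℕ → XX A := fun n => ⟨e₀ n, he₀ n⟩ with he
  obtain ⟨a, hS, hu⟩ := exists_coef e (fun x => by
    have h1 : ∀ c : ℕ → ℝ, Tendsto (fun N => ∑ n ∈ range N, c n • e n) atTop (𝓝 x) ↔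
        Tendsto (fun N => ∑ n ∈ range N, c n • e₀ n) atTop (𝓝 x.1) := by
      intro c
      rw [tendsto_subtype_rng]
      simp [he]
    simp only [h1]
    exact hb₀ x.1 x.2)
  have hae : ∀ i j, a i (e j) = if i = j then 1 else 0 := by
    intro i j
    refine hu (fun i => if i = j then 1 else 0) (e j) ?_ i
    refine tendsto_const_nhds.congr' ?_
    filter_upwards [eventually_gt_atTop j] with N hN
    simp [hN]
  have hene : ∀ n, e n ≠ 0 := by
    intro n h0
    have := hae n n
    rw [h0] at this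
    simp at this
  have habs := absolute_of_nuclear hsys
    (fun k x hx => Subtype.ext (eq_zero_of_pp x.2 hx))
    (fun l N => ⟨fun i => ((yy (enc.symm i)).toLinearMap).comp (XX A).subtype,
      fun x hx => nuclear_bound x.2 l N fun j hj => hx ⟨j, hj⟩⟩) e a hae (fun k => by
      obtain ⟨l, C, hC, hl⟩ := equicontinuous_psum hsys e a hS hu hene k
      refine ⟨l, 2 * C, by positivity, fun x j => ?_⟩
      have h1 : a j x • e j = psum e a (j + 1) x - psum e a j x := by
        rw [psum_apply, psum_apply, sum_range_succ]; abel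
      have h2 := map_sub_le_add (p k) (psum e a (j + 1) x) (psum e a j x)
      rw [← h1, map_smul_eq_mul, Real.norm_eq_abs] at h2
      linarith [hl x (j + 1), hl x j])
  choose σ hσ C hC hσC using habs
  let kk : ℕ → ℕ := fun i => Nat.rec 0 (fun _ k => σ k + 1) i
  have hkk : ∀ i, kk (i + 1) = σ (kk i) + 1 := fun _ => rfl
  set b : ℕ → ℕ := fun i => σ (kk i) with hbdef
  have hkb : ∀ i, kk i ≤ b i := fun i => hσ _
  have hbk : ∀ i, b i < kk (i + 1) := fun i => by rw [hkk]; exact Nat.lt_succ_self _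
  have hbmono : StrictMono b := strictMono_nat_of_lt_succ fun i => (hbk i).trans_le (hkb (i + 1))
  have hbk' : ∀ i, ∀ j < i, b j < kk i := by
    intro i j hj
    obtain ⟨i, rfl⟩ : ∃ i', i = i' + 1 := ⟨i - 1, by omega⟩
    exact (hbmono.monotone (by omega)).trans_lt (hbk i)
  refine ⟨b, fun i => hbmono.id_le i, fun m hm hA => ?_⟩
  obtain ⟨t, ht⟩ := pow_unbounded_of_one_lt (2 * ∑ i ∈ range (m + 1), C (kk i))
    (show (1 : ℝ) < 2 by norm_num)
  set n := b m + t with hn
  set β := blk m b n with hβ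
  have hβA : β ∈ A := hA n
  have hβ1 : β.1 = m := rfl
  have hβ2 : β.2.2 = n := rfl
  have key : ∀ i ≤ m, ∀ (r s : ℕ) (hr : r ≤ m) (hs : s ≤ m), r ≠ i → s ≠ i → ∀ S : Finset ℕ,
      2 ^ t * ∑ j ∈ S, |a j ⟨uu β r s, uu_mem hβA hr hs⟩| * |yy (β, i) (e j)| ≤ C (kk i) := by
    intro i hi r s hr hs hri hsi S
    have r1 : rho β (kk i) = i := rho_blk n hi (hkb i) (hbk' i)
    have r2 : rho β (b i) = i := rho_blk n hi le_rfl fun j hj => hbmono hj
    have h1 := hσC (kk i) ⟨uu β r s, uu_mem hβA hr hs⟩ S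
    have h2 : pp (b i) (uu β r s) ≤ WW β ^ (b i + n * i) :=
      pp_uu_le hβA hr hs _ (by simp [om, ex, r2, hri, hβ2]) (by simp [om, ex, r2, hsi, hβ2])
    have h3 : WW β ^ (n * i + n) ≤ om (kk i) (β, i) := by
      refine pow_le_pow_right₀ (one_le_WW _) ?_
      simp only [ex, r1, if_true, hβ2, mul_add, mul_one]
      omega
    have hW := WW_pos β
    set T := ∑ j ∈ S, |a j ⟨uu β r s, uu_mem hβA hr hs⟩| * |yy (β, i) (e j)| with hT
    have hT0 : 0 ≤ T := sum_nonneg fun _ _ => by positivity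
    have h4 : WW β ^ (n * i + n) * T ≤ C (kk i) * WW β ^ (b i + n * i) := by
      refine le_trans ?_ (h1.trans (mul_le_mul_of_nonneg_left h2 (hC _).le))
      rw [hT, mul_sum]
      refine sum_le_sum fun j _ => ?_
      have h5 : om (kk i) (β, i) * |yy (β, i) (e j)| ≤ p (kk i) (e j) := om_yy_le (e j).2 _ _
      have h6 := abs_nonneg (yy (β, i) (e j))
      calc _ = |a j ⟨uu β r s, uu_mem hβA hr hs⟩| * (WW β ^ (n * i + n) * |yy (β, i) (e j)|) := by
            ring
        _ ≤ _ := by gcongr; exact le_trans (by gcongr) h5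
    have h5 : WW β ^ (b i + n * i) * 2 ^ t ≤ WW β ^ (n * i + n) := by
      have h6 : (2 : ℝ) ^ t ≤ WW β ^ t := pow_le_pow_left₀ (by norm_num) (two_le_WW β) t
      have h7 : b i ≤ b m := hbmono.monotone hi
      calc _ ≤ WW β ^ (b i + n * i) * WW β ^ t := by gcongr
        _ = WW β ^ (b i + n * i + t) := (pow_add _ _ _).symm
        _ ≤ _ := pow_le_pow_right₀ (one_le_WW _) (by omega)
    have h6 : WW β ^ (b i + n * i) * (2 ^ t * T) ≤ WW β ^ (b i + n * i) * C (kk i) := by
      calc _ = WW β ^ (b i + n * i) * 2 ^ t * T := by ring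
        _ ≤ WW β ^ (n * i + n) * T := by gcongr
        _ ≤ _ := by linarith
    exact le_of_mul_le_mul_left h6 (by positivity)
  have m0 : 0 ≤ m := by omega
  have m1 : 1 ≤ m := by omega
  set u01 : XX A := ⟨uu β 0 1, uu_mem hβA m0 m1⟩ with hu01
  set u02 : XX A := ⟨uu β 0 2, uu_mem hβA m0 hm⟩ with hu02
  set u12 : XX A := ⟨uu β 1 2, uu_mem hβA m1 hm⟩ with hu12
  have hrel : u01 = u02 - u12 := by
    apply Subtype.ext
    simp [hu01, hu02, hu12, uu]
  have hpart : ∀ N, 2 ^ t * yy (β, 0) (psum e a N u01) ≤ 2 * ∑ i ∈ range (m + 1), C (kk i) := by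
    intro N
    have h1 : yy (β, 0) (psum e a N u01) ≤ ∑ j ∈ range N, |a j u01| * |yy (β, 0) (e j)| := by
      rw [psum_apply]
      simp only [Submodule.coe_sum, Submodule.coe_smul, map_sum, map_smul, smul_eq_mul]
      exact sum_le_sum fun j _ => by rw [← abs_mul]; exact le_abs_self _
    have h2 : ∑ j ∈ range N, |a j u01| * |yy (β, 0) (e j)| ≤ ∑ j ∈ range N,
        2 * ∑ i ∈ range (m + 1), |if i = 0 then a j u12 else if i = 1 then a j u02
          else a j u02 - a j u12| * |yy (β, i) (e j)| := by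
      refine sum_le_sum fun j _ => ?_
      rw [hrel, map_sub]
      exact rank_one_ineq hm (fun i => yy (β, i) (e j)) (sum_yy (e j).2 β) _ _
    rw [← mul_sum, sum_comm] at h2
    have h3 : ∀ i ∈ range (m + 1), 2 ^ t * ∑ j ∈ range N,
        |if i = 0 then a j u12 else if i = 1 then a j u02 else a j u02 - a j u12|
          * |yy (β, i) (e j)| ≤ C (kk i) := by
      intro i hi
      have hi' : i ≤ m := Nat.lt_succ_iff.mp (mem_range.mp hi)
      by_cases h0 : i = 0
      · simp only [if_pos h0]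
        exact key i hi' 1 2 m1 hm (by omega) (by omega) _
      · by_cases h1 : i = 1
        · simp only [if_neg h0, if_pos h1]
          exact key i hi' 0 2 m0 hm (by omega) (by omega) _
        · simp only [if_neg h0, if_neg h1, ← map_sub, ← hrel]
          exact key i hi' 0 1 m0 m1 (by omega) (by omega) _
    have h4 := sum_le_sum h3
    rw [← mul_sum] at h4
    have h5 : (0 : ℝ) < 2 ^ t := by positivity
    nlinarith
  have hlim : Tendsto (fun N => 2 ^ t * yy (β, 0) (psum e a N u01)) atTop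
      (𝓝 (2 ^ t * yy (β, 0) u01)) :=
    ((((yy (β, 0)).continuous.comp continuous_subtype_val).tendsto u01).comp (hS u01)).const_mul _
  have h1 := le_of_tendsto' hlim hpart
  have h2 : yy (β, 0) u01 = 1 := by simp [hu01, yy_uu]
  rw [h2] at h1
  linarith

end Pool.Agent.P.MP_708f28_lc
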