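import Pool.Agent.P.MP_708f28_lc.HasBasis
import Pool.Agent.P.MP_708f28_lc.NoBasis

/-!
The reduction of an arbitrary analytic set to `SFb`, the analyticity of `SFb`, and an analytic
set that is not Borel.
-/

namespace Pool.Agent.P.MP_708f28_lc

open Filter Topology Finset MeasureTheory

theorem mem_range_of_scheme {Z : Type*} [TopologicalSpace Z] [PolishSpace Z]
    (f : (ℕ → ℕ) → Z) (hf : Continuous f) (b : ℕ → ℕ) (z : Z)
    (h : ∀ m, 2 ≤ m → z ∈ closure (f '' {γ | ∀ i < m, γ i ≤ b i})) : z ∈ Set.range f := by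
  let _ := TopologicalSpace.upgradeIsCompletelyMetrizable Z
  have h1 : ∀ m : ℕ, ∃ γ : ℕ → ℕ, (∀ i < m, γ i ≤ b i) ∧ dist (f γ) z < 1 / ((m : ℝ) + 1) := by
    intro m
    obtain ⟨_, ⟨γ, hγ, rfl⟩, hd⟩ :=
      Metric.mem_closure_iff.mp (h (m + 2) (by omega)) (1 / ((m : ℝ) + 1)) (by positivity)
    exact ⟨γ, fun i hi => hγ i (by omega), by rwa [dist_comm]⟩
  choose γ hγ hd using h1
  have hK : IsCompact (Set.pi Set.univ fun i => Set.Iic (b i)) :=
    isCompact_univ_pi fun i => (Set.finite_Iic _).isCompact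
  obtain ⟨δ, -, φ, hφ, hlim⟩ := hK.tendsto_subseq (x := fun m i => min (γ m i) (b i))
    fun m i _ => Set.mem_Iic.mpr (min_le_right _ _)
  have h2 : Tendsto (γ ∘ φ) atTop (𝓝 δ) := by
    rw [tendsto_pi_nhds] at hlim ⊢
    intro i
    refine (hlim i).congr' ?_
    filter_upwards [eventually_gt_atTop i] with m hm
    exact min_eq_left (hγ _ i (hm.trans_le (hφ.id_le m)))
  have h3 : Tendsto (fun m => f (γ m)) atTop (𝓝 z) := by
    rw [tendsto_iff_dist_tendsto_zero]
    exact squeeze_zero (fun _ => dist_nonneg) (fun m => (hd m).le)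
      tendsto_one_div_add_atTop_nhds_zero_nat
  exact ⟨δ, tendsto_nhds_unique ((hf.tendsto δ).comp h2) (h3.comp hφ.tendsto_atTop)⟩

theorem measurable_XX {Z : Type*} [TopologicalSpace Z] (A : Z → Set Blk)
    (hA : ∀ β, IsOpen {z | β ∈ A z}) :
    @Measurable Z SF (borel Z) effros fun z => ⟨XX (A z), XX_closed _⟩ := by
  refine @measurable_generateFrom Z SF (borel Z) _ _ ?_
  rintro _ ⟨U, hU, rfl⟩
  refine MeasurableSpace.measurableSet_generateFrom (isOpen_iff_mem_nhds.mpr ?_)
  rintro z ⟨x, hx, hxU⟩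
  obtain ⟨y, hyU, hy⟩ := mem_closure_iff.mp hx U hU hxU
  obtain ⟨T, hT, hyT⟩ := Submodule.mem_span_finite_of_mem_span hy
  have h1 : ∀ᶠ z' in 𝓝 z, ∀ g ∈ T, g ∈ gens (A z') := by
    rw [eventually_all_finset]
    intro g hg
    obtain ⟨β, hβ, h⟩ := hT hg
    filter_upwards [(hA β).mem_nhds hβ] with z' hz'
    exact ⟨β, hz', h⟩
  filter_upwards [h1] with z' hz'
  exact ⟨y, Submodule.le_topologicalClosure _ (Submodule.span_mono hz' hyT), hyU⟩

theorem exists_reduction {Z : Type*} [TopologicalSpace Z] [PolishSpace Z] (B : Set Z)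
    (hB : AnalyticSet B) :
    ∃ f : Z → SF, @Measurable Z SF (borel Z) effros f ∧ B = f ⁻¹' SFb := by
  rw [AnalyticSet] at hB
  rcases hB with rfl | ⟨f, hf, rfl⟩
  · refine ⟨_, measurable_XX (fun _ => Set.univ) (fun _ => by simp), ?_⟩
    ext z
    simp only [Set.mem_empty_iff_false, false_iff]
    intro h
    obtain ⟨b, -, hb⟩ := exists_seq_of_hasBasis _ h
    exact hb 2 le_rfl fun _ => Set.mem_univ _
  · let A : Z → Set Blk := fun z => {β | (∀ j < β.1, j ≤ bb β j) ∧
      z ∉ closure (f '' {γ | ∀ i < β.1, γ i ≤ bb β i})}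
    refine ⟨_, measurable_XX A (fun β => ?_), ?_⟩
    · by_cases h : ∀ j < β.1, j ≤ bb β j
      · have : {z | β ∈ A z} = (closure (f '' {γ | ∀ i < β.1, γ i ≤ bb β i}))ᶜ := by
          ext z
          exact ⟨fun h' => h'.2, fun h' => ⟨h, h'⟩⟩
        rw [this]
        exact isClosed_closure.isOpen_compl
      · have : {z | β ∈ A z} = ∅ := by
          ext z
          exact ⟨fun h' => h h'.1, fun h' => h'.elim⟩
        rw [this]
        exact isOpen_empty
    · ext z
      constructor
      · rintro ⟨γ, rfl⟩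
        refine hasBasis_of_jump _ (fun k => k + ∑ i ∈ range (k + 1), γ i)
          (fun k => Nat.le_add_right _ _) fun β hβ => ?_
        obtain ⟨i, hi, hlt⟩ : ∃ i < β.1, bb β i < γ i := by
          by_contra hcon
          push Not at hcon
          exact hβ.2 (subset_closure ⟨γ, hcon, rfl⟩)
        refine ⟨i, hi.le, fun k hk => ?_⟩
        have h1 : i ≤ k := by
          rcases Nat.eq_zero_or_pos i with h0 | h0
          · omega
          · have h2 := ((rho_eq_iff β k i).mp hk).2 (i - 1) (by omega)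
            have h3 := hβ.1 (i - 1) h2.1
            omega
        have h2 : γ i ≤ ∑ i ∈ range (k + 1), γ i :=
          single_le_sum (f := γ) (fun _ _ => Nat.zero_le _) (mem_range.mpr (by omega))
        have h3 := rho_mono β (Nat.le_add_right k (∑ i ∈ range (k + 1), γ i))
        refine lt_of_le_of_ne (hk ▸ h3) fun h4 => ?_
        have h5 := ((rho_eq_iff β _ i).mp h4.symm).1
        omega
      · intro h
        obtain ⟨b, hb1, hb2⟩ := exists_seq_of_hasBasis _ h
        refine mem_range_of_scheme f hf b z fun m hm => ?_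
        by_contra hcon
        refine hb2 m hm fun n => ⟨fun j hj => ?_, ?_⟩
        · rw [bb_blk (m := m) b n hj]
          exact hb1 j
        · have : {γ : ℕ → ℕ | ∀ i < (blk m b n).1, γ i ≤ bb (blk m b n) i}
              = {γ | ∀ i < m, γ i ≤ b i} := by
            ext γ
            exact forall₂_congr fun i hi => by rw [bb_blk (m := m) b n hi]
          rw [this]
          exact hcon

theorem exists_analytic_not_borel :
    ∃ D : Set (ℕ → ℕ), AnalyticSet D ∧ ¬ @MeasurableSet _ (borel _) D := by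
  obtain ⟨V, hV⟩ := TopologicalSpace.exists_seq_basis ((ℕ → ℕ) × (ℕ → ℕ))
  let F : Set ((ℕ → ℕ) × (ℕ → ℕ)) := {q | ∀ n, q.1 n = 0 → q ∉ V n}
  have hF : IsClosed F := by
    have : F = ⋂ n, ({q | q.1 n = 0}ᶜ ∪ (V n)ᶜ) := by
      ext q
      simp only [F, Set.mem_ofPred_eq, Set.mem_iInter, Set.mem_union, Set.mem_compl_iff]
      refine forall_congr' fun n => ?_
      tauto
    rw [this]
    refine isClosed_iInter fun n => IsClosed.union ?_ (hV.isOpen ⟨n, rfl⟩).isClosed_compl
    have h1 : Continuous fun q : (ℕ → ℕ) × (ℕ → ℕ) => q.1 n := by fun_prop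
    exact ((isOpen_discrete ({0} : Set ℕ)).preimage h1).isClosed_compl
  refine ⟨Prod.fst '' F, hF.analyticSet.image_of_continuous continuous_fst, fun hD => ?_⟩
  borelize (ℕ → ℕ)
  have h1 := hD.compl.analyticSet
  obtain ⟨H, hH, hHD⟩ : ∃ H : Set ((ℕ → ℕ) × (ℕ → ℕ)), IsClosed H ∧
      Prod.fst '' H = (Prod.fst '' F)ᶜ := by
    rw [AnalyticSet] at h1
    rcases h1 with h1 | ⟨f, hf, h1⟩
    · exact ⟨∅, isClosed_empty, by rw [h1, Set.image_empty]⟩
    · refine ⟨{q | f q.2 = q.1}, isClosed_eq (hf.comp continuous_snd) continuous_fst, ?_⟩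
      rw [← h1]
      ext z
      simp
  classical
  let c : ℕ → ℕ := fun n => if Disjoint (V n) H then 0 else 1
  have key : ∀ γ, (c, γ) ∈ F ↔ (c, γ) ∈ H := by
    intro γ
    constructor
    · intro h
      by_contra hcon
      obtain ⟨_, ⟨n, rfl⟩, h2, h3⟩ := hV.exists_subset_of_mem_open hcon hH.isOpen_compl
      exact h n (by simpa [c] using Set.subset_compl_iff_disjoint_right.mp h3) h2
    · intro h n hn h2
      have h3 : Disjoint (V n) H := by simpa [c] using hn
      exact Set.disjoint_left.mp h3 h2 h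
  have key2 : c ∈ Prod.fst '' F ↔ c ∈ Prod.fst '' H := by
    simp only [Set.mem_image, Prod.exists, exists_and_right, exists_eq_right, key]
  rw [hHD] at key2
  exact iff_not_self key2

/-- The closed span of a sequence. -/
noncomputable def cspan (e : ℕ → C(ℝ, ℝ)) : SF :=
  ⟨(Submodule.span ℝ (Set.range e)).topologicalClosure, Submodule.isClosed_topologicalClosure _⟩

theorem isOpen_cspan {U : Set C(ℝ, ℝ)} (hU : IsOpen U) :
    IsOpen {e | (((cspan e).1 : Set C(ℝ, ℝ)) ∩ U).Nonempty} := by
  refine isOpen_iff_mem_nhds.mpr ?_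
  rintro e ⟨x, hx, hxU⟩
  obtain ⟨y, hyU, hy⟩ := mem_closure_iff.mp hx U hU hxU
  obtain ⟨c, M, -, rfl⟩ := exists_repr_of_mem_span e hy
  have h1 : Continuous fun e' : ℕ → C(ℝ, ℝ) => ∑ n ∈ range M, c n • e' n := by fun_prop
  filter_upwards [(hU.preimage h1).mem_nhds hyU] with e' he'
  exact ⟨_, Submodule.le_topologicalClosure _ (Submodule.sum_mem _ fun n _ =>
    Submodule.smul_mem _ _ (Submodule.subset_span ⟨n, rfl⟩)), he'⟩

/-- Eventually zero sequences and basic sequences. -/
def Wit : Set (ℕ → C(ℝ, ℝ)) :=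
  (⋃ M : ℕ, {e | ∀ n, M ≤ n → e n = 0}) ∪
    ((⋂ n : ℕ, {e | e n = 0}ᶜ) ∩ ⋂ k : ℕ, ⋃ l : ℕ, ⋃ C : ℕ,
      {e | ∀ (N M : ℕ) (c : ℕ → ℝ), N ≤ M →
        pp k (∑ n ∈ range N, c n • e n) ≤ C * pp l (∑ n ∈ range M, c n • e n)})

theorem analyticSet_Wit : AnalyticSet Wit := by
  borelize (ℕ → C(ℝ, ℝ))
  refine MeasurableSet.analyticSet ?_
  have h0 : ∀ n, IsClosed {e : ℕ → C(ℝ, ℝ) | e n = 0} := fun n =>
    isClosed_eq (continuous_apply n) continuous_const
  refine MeasurableSet.union (MeasurableSet.iUnion fun M => IsClosed.measurableSet ?_)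
    (MeasurableSet.inter (MeasurableSet.iInter fun n => (h0 n).measurableSet.compl)
      (MeasurableSet.iInter fun k => MeasurableSet.iUnion fun l => MeasurableSet.iUnion fun C =>
        IsClosed.measurableSet ?_))
  · simp only [Set.ofPred_forall]
    exact isClosed_iInter fun n => isClosed_iInter fun _ => h0 n
  · simp only [Set.ofPred_forall]
    refine isClosed_iInter fun N => isClosed_iInter fun M => isClosed_iInter fun c =>
      isClosed_iInter fun _ => isClosed_le ((pp_continuous k).comp (by fun_prop))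
        (continuous_const.mul ((pp_continuous l).comp (by fun_prop)))

theorem image_Wit : cspan '' Wit = SFb := by
  classical
  ext X
  constructor
  · rintro ⟨e, he | ⟨he1, he2⟩, rfl⟩
    · left
      obtain ⟨M, hM⟩ := Set.mem_iUnion.mp he
      have h1 : (Set.range e).Finite := by
        refine (((Set.finite_lt_nat M).image e).insert 0).subset ?_
        rintro _ ⟨n, rfl⟩
        by_cases h : n < M
        · exact Or.inr ⟨n, h, rfl⟩
        · exact Or.inl (hM n (not_lt.mp h))
      have := FiniteDimensional.span_of_finite ℝ h1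
      exact Submodule.finiteDimensional_of_le (Submodule.topologicalClosure_minimal _ le_rfl
        (Submodule.closed_of_finiteDimensional _))
    · right
      simp only [Set.mem_iInter, Set.mem_iUnion, Set.mem_compl_iff, Set.mem_ofPred_eq] at he1 he2
      refine ⟨e, fun n => Submodule.le_topologicalClosure _ (Submodule.subset_span ⟨n, rfl⟩),
        fun x hx => basis_of_basic sys_pp e he1 (fun k => ?_) x hx⟩
      obtain ⟨l, C, h⟩ := he2 k
      exact ⟨l, C, h⟩
  · obtain ⟨X, hX⟩ := X
    rintro (h | ⟨e₀, he₀, hb₀⟩)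
    · obtain ⟨d, s, hs⟩ := Submodule.fg_iff_exists_fin_generating_family.mp
        ((Submodule.fg_iff_finiteDimensional X).mpr h)
      refine ⟨fun n => if h : n < d then s ⟨n, h⟩ else 0,
        Or.inl (Set.mem_iUnion.mpr ⟨d, fun n hn => dif_neg (not_lt.mpr hn)⟩), Subtype.ext ?_⟩
      have h1 : Submodule.span ℝ (Set.range fun n => if h : n < d then s ⟨n, h⟩ else 0) = X := by
        rw [← hs]
        apply le_antisymm
        · rw [Submodule.span_le]
          rintro _ ⟨n, rfl⟩
          by_cases h : n < d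
          · simp only [dif_pos h]
            exact Submodule.subset_span ⟨_, rfl⟩
          · simp only [dif_neg h]
            exact Submodule.zero_mem _
        · refine Submodule.span_mono ?_
          rintro _ ⟨i, rfl⟩
          exact ⟨i, by simp⟩
      simp only [cspan, h1]
      exact hX.submodule_topologicalClosure_eq
    · simp only at he₀ hb₀
      have := hX.isCompletelyMetrizableSpace
      set p : ℕ → Seminorm ℝ X := fun k => (pp k).comp X.subtype with hp
      have hsys : Sys p := sys_pp.restrict X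
      set e : ℕ → X := fun n => ⟨e₀ n, he₀ n⟩ with he
      obtain ⟨a, hS, hu⟩ := exists_coef e (fun x => by
        have h1 : ∀ c : ℕ → ℝ, Tendsto (fun N => ∑ n ∈ range N, c n • e n) atTop (𝓝 x) ↔
            Tendsto (fun N => ∑ n ∈ range N, c n • e₀ n) atTop (𝓝 x.1) := by
          intro c
          rw [tendsto_subtype_rng]
          simp [he]
        simp only [h1]
        exact hb₀ x.1 x.2)
      have hae : ∀ i j, a i (e j) = if i = j then 1 else 0 := by
        intro i j
        refine hu (fun i => if i = j then 1 else 0) (e j) ?_ i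
        refine tendsto_const_nhds.congr' ?_
        filter_upwards [eventually_gt_atTop j] with N hN
        simp [hN]
      have hene : ∀ n, e n ≠ 0 := by
        intro n h0
        have := hae n n
        rw [h0] at this
        simp at this
      refine ⟨e₀, Or.inr ⟨Set.mem_iInter.mpr fun n h => hene n (Subtype.ext h),
        Set.mem_iInter.mpr fun k => ?_⟩, Subtype.ext (le_antisymm ?_ fun x hx => ?_)⟩
      · obtain ⟨l, C, hC, hl⟩ := equicontinuous_psum hsys e a hS hu hene k
        obtain ⟨C', hC'⟩ := exists_nat_ge C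
        refine Set.mem_iUnion.mpr ⟨l, Set.mem_iUnion.mpr ⟨C', fun N M c hNM => ?_⟩⟩
        have h1 := hl (∑ n ∈ range M, c n • e n) N
        have h2 : psum e a N (∑ n ∈ range M, c n • e n) = ∑ n ∈ range N, c n • e n := by
          rw [psum_apply]
          refine sum_congr rfl fun n hn => ?_
          have : n < M := (mem_range.mp hn).trans_le hNM
          simp [map_sum, hae, this]
        rw [h2] at h1
        simp only [hp, Seminorm.comp_apply, map_sum, map_smul, Submodule.subtype_apply, he] at h1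
        exact h1.trans (mul_le_mul_of_nonneg_right hC' (apply_nonneg _ _))
      · refine Submodule.topologicalClosure_minimal _ (Submodule.span_le.mpr ?_) hX
        rintro _ ⟨n, rfl⟩
        exact he₀ n
      · obtain ⟨c, hc, -⟩ := hb₀ x hx
        exact mem_closure_of_tendsto hc (Eventually.of_forall fun N =>
          Submodule.sum_mem _ fun n _ => Submodule.smul_mem _ _ (Submodule.subset_span ⟨n, rfl⟩))

theorem SFb_analytic : ∃ (Z : Type) (_ : TopologicalSpace Z) (_ : PolishSpace Z) (f : Z → SF),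
    @Measurable Z SF (borel Z) effros f ∧ Set.range f = SFb := by
  obtain ⟨Z, tZ, hZ, g, hg, hr⟩ := analyticSet_iff_exists_polishSpace_range.mp analyticSet_Wit
  refine ⟨Z, tZ, hZ, cspan ∘ g, ?_, by rw [Set.range_comp, hr, image_Wit]⟩
  refine @measurable_generateFrom Z SF (borel Z) _ _ ?_
  rintro _ ⟨U, hU, rfl⟩
  exact MeasurableSpace.measurableSet_generateFrom ((isOpen_cspan hU).preimage hg)

theorem SFb_not_borel : ¬ @MeasurableSet SF effros SFb := by
  intro h
  obtain ⟨D, hD, hnD⟩ := exists_analytic_not_borel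
  obtain ⟨f, hf, rfl⟩ := exists_reduction D hD
  exact hnD (hf h)

end Pool.Agent.P.MP_708f28_lc
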