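import Pool.Agent.P.MP_708f28_lc.Bumps

/-!
The model spaces.  A block `β = (m, b, n)` has coordinates `0, …, m` with sum zero.  The levels
`k` are divided into regimes `0, …, m` by the list `b`; in regime `i` the coordinate `i` carries
a much larger weight than the other ones.
-/

namespace Pool.Agent.P.MP_708f28_lc

open Filter Topology Finset

/-- Blocks. -/
abbrev Blk : Type := ℕ × List ℕ × ℕ

/-- The right end of regime `i`. -/
def bb (β : Blk) (i : ℕ) : ℕ := β.2.1.getD i 0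

/-- An enumeration of all coordinates. -/
def enc : Blk × ℕ ≃ ℕ := Denumerable.eqv _

theorem rho_ex (β : Blk) (k : ℕ) : ∃ i, β.1 ≤ i ∨ k ≤ bb β i := ⟨β.1, Or.inl le_rfl⟩

/-- The regime of level `k`. -/
def rho (β : Blk) (k : ℕ) : ℕ := Nat.find (rho_ex β k)

theorem rho_mono (β : Blk) {k l : ℕ} (h : k ≤ l) : rho β k ≤ rho β l :=
  Nat.find_mono fun _ hi => hi.imp id fun h' => h.trans h'

theorem rho_eq_iff (β : Blk) (k i : ℕ) :
    rho β k = i ↔ (β.1 ≤ i ∨ k ≤ bb β i) ∧ ∀ j < i, j < β.1 ∧ bb β j < k := by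
  simp [rho, Nat.find_eq_iff]

/-- The exponent of the base weight of a block. -/
def EE (β : Blk) : ℕ := β.1 + 1 + ∑ i ∈ range (β.1 + 1), enc (β, i)

/-- The base weight of a block. -/
noncomputable def WW (β : Blk) : ℝ := 2 ^ EE β

/-- The exponent of the weight of a coordinate at level `k`. -/
def ex (k : ℕ) (ν : Blk × ℕ) : ℕ :=
  k + ν.1.2.2 * (rho ν.1 k + if ν.2 = rho ν.1 k then 1 else 0)

/-- The weight of a coordinate at level `k`. -/
noncomputable def om (k : ℕ) (ν : Blk × ℕ) : ℝ := WW ν.1 ^ ex k ν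

theorem two_le_WW (β : Blk) : 2 ≤ WW β := by
  have : (2 : ℝ) ^ 1 ≤ 2 ^ EE β := pow_le_pow_right₀ (by norm_num) (by unfold EE; omega)
  simpa [WW] using this

theorem one_le_WW (β : Blk) : 1 ≤ WW β := le_trans (by norm_num) (two_le_WW β)

theorem WW_pos (β : Blk) : 0 < WW β := lt_of_lt_of_le one_pos (one_le_WW β)

theorem om_pos (k : ℕ) (ν : Blk × ℕ) : 0 < om k ν := pow_pos (WW_pos _) _

theorem WW_ge (β : Blk) {i : ℕ} (hi : i ≤ β.1) :
    ((β.1 : ℝ) + 1) * 2 ^ enc (β, i) ≤ WW β := by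
  have h1 : enc (β, i) ≤ ∑ i ∈ range (β.1 + 1), enc (β, i) :=
    single_le_sum (f := fun i => enc (β, i)) (fun _ _ => Nat.zero_le _) (mem_range.mpr (by omega))
  have h2 : ((β.1 : ℝ) + 1) ≤ 2 ^ (β.1 + 1) := by
    have := (Nat.lt_two_pow_self (n := β.1 + 1)).le
    exact_mod_cast this
  have h3 : (2 : ℝ) ^ enc (β, i) ≤ 2 ^ ∑ i ∈ range (β.1 + 1), enc (β, i) :=
    pow_le_pow_right₀ (by norm_num) h1
  unfold WW EE
  rw [pow_add]
  gcongr

theorem ex_succ (k : ℕ) (ν : Blk × ℕ) : ex k ν + 1 ≤ ex (k + 1) ν := by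
  have h1 := rho_mono ν.1 (Nat.le_succ k)
  have h2 : (rho ν.1 k + if ν.2 = rho ν.1 k then 1 else 0)
      ≤ rho ν.1 (k + 1) + if ν.2 = rho ν.1 (k + 1) then 1 else 0 := by
    simp only [Nat.succ_eq_add_one] at h1
    split_ifs <;> omega
  have h3 := Nat.mul_le_mul_left ν.1.2.2 h2
  unfold ex
  omega

theorem om_succ (k : ℕ) (ν : Blk × ℕ) : om k ν * WW ν.1 ≤ om (k + 1) ν := by
  unfold om
  rw [← pow_succ]
  exact pow_le_pow_right₀ (one_le_WW _) (ex_succ k ν)

theorem om_mono {k l : ℕ} (h : k ≤ l) (ν : Blk × ℕ) : om k ν ≤ om l ν := by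
  induction l, h using Nat.le_induction with
  | base => exact le_rfl
  | succ l _ ih =>
    refine ih.trans (le_trans ?_ (om_succ l ν))
    exact le_mul_of_one_le_right (om_pos _ _).le (one_le_WW _)

/-- The function representing the coordinate vector `ν`. -/
noncomputable def GG (ν : Blk × ℕ) : C(ℝ, ℝ) := tents (fun k => om k ν) (enc ν)

/-- The coordinate functional. -/
noncomputable def yy (ν : Blk × ℕ) : C(ℝ, ℝ) →L[ℝ] ℝ :=
  (om 0 ν)⁻¹ • ContinuousMap.evalCLM ℝ (tau 0 (enc ν))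

theorem GG_tau (μ ν : Blk × ℕ) (k : ℕ) :
    GG μ (tau k (enc ν)) = if μ = ν then om k ν else 0 := by
  unfold GG
  rw [tents_tau]
  by_cases h : μ = ν
  · simp [h]
  · simp [h]

theorem yy_GG (μ ν : Blk × ℕ) : yy ν (GG μ) = if μ = ν then 1 else 0 := by
  have h0 := (om_pos 0 ν).ne'
  simp only [yy, smul_apply, ContinuousMap.evalCLM_apply, GG_tau, smul_eq_mul]
  split_ifs
  · exact inv_mul_cancel₀ h0
  · simp

/-- The generators. -/
noncomputable def uu (β : Blk) (i j : ℕ) : C(ℝ, ℝ) := GG (β, i) - GG (β, j)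

/-- The generators attached to a set of blocks. -/
def gens (A : Set Blk) : Set C(ℝ, ℝ) :=
  {f | ∃ β ∈ A, ∃ i ≤ β.1, ∃ j ≤ β.1, f = uu β i j}

/-- The model space. -/
noncomputable def XX (A : Set Blk) : Submodule ℝ C(ℝ, ℝ) :=
  (Submodule.span ℝ (gens A)).topologicalClosure

theorem XX_closed (A : Set Blk) : IsClosed (XX A : Set C(ℝ, ℝ)) :=
  Submodule.isClosed_topologicalClosure _

theorem uu_mem {A : Set Blk} {β : Blk} (hβ : β ∈ A) {i j : ℕ} (hi : i ≤ β.1) (hj : j ≤ β.1) :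
    uu β i j ∈ XX A :=
  Submodule.le_topologicalClosure _ (Submodule.subset_span ⟨β, hβ, i, hi, j, hj, rfl⟩)

theorem vanish {A : Set Blk} (φ : C(ℝ, ℝ) →L[ℝ] ℝ)
    (h : ∀ β ∈ A, ∀ i ≤ β.1, ∀ j ≤ β.1, φ (GG (β, i)) = φ (GG (β, j))) {f : C(ℝ, ℝ)}
    (hf : f ∈ XX A) : φ f = 0 := by
  have h1 : XX A ≤ φ.ker := by
    refine Submodule.topologicalClosure_minimal _ (Submodule.span_le.mpr ?_) φ.isClosed_ker
    rintro _ ⟨β, hβ, i, hi, j, hj, rfl⟩
    simp [uu, h β hβ i hi j hj]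
  exact h1 hf

theorem vanish' {A : Set Blk} (φ : C(ℝ, ℝ) →L[ℝ] ℝ) (h : ∀ ν, φ (GG ν) = 0) {f : C(ℝ, ℝ)}
    (hf : f ∈ XX A) : φ f = 0 :=
  vanish φ (fun _ _ _ _ _ _ => by rw [h, h]) hf

theorem eval_tau {A : Set Blk} {f : C(ℝ, ℝ)} (hf : f ∈ XX A) (k : ℕ) (ν : Blk × ℕ) :
    f (tau k (enc ν)) = om k ν * yy ν f := by
  have := vanish' (ContinuousMap.evalCLM ℝ (tau k (enc ν)) - om k ν • yy ν) (fun μ => by
    simp only [sub_apply, ContinuousMap.evalCLM_apply, GG_tau,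
      smul_apply, yy_GG, smul_eq_mul]
    split_ifs <;> simp) hf
  simpa [sub_eq_zero] using this

theorem yy_eq_zero {A : Set Blk} {f : C(ℝ, ℝ)} (hf : f ∈ XX A) {ν : Blk × ℕ}
    (h : ν.1 ∉ A ∨ ν.1.1 < ν.2) : yy ν f = 0 := by
  refine vanish (yy ν) (fun β hβ i hi j hj => ?_) hf
  have key : ∀ i ≤ β.1, (β, i) ≠ ν := by
    rintro i hi rfl
    rcases h with h | h
    · exact h hβ
    · exact absurd hi (not_le.mpr h)
  rw [yy_GG, yy_GG, if_neg (key i hi), if_neg (key j hj)]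

theorem sum_yy {A : Set Blk} {f : C(ℝ, ℝ)} (hf : f ∈ XX A) (β : Blk) :
    ∑ i ∈ range (β.1 + 1), yy (β, i) f = 0 := by
  have := vanish (A := A) (∑ i ∈ range (β.1 + 1), yy (β, i)) (fun β' _ i hi j hj => by
    simp only [_root_.sum_apply, yy_GG, Prod.mk.injEq]
    by_cases hβ : β' = β
    · subst hβ
      simp [hi, hj]
    · simp [hβ]) hf
  simpa using this

theorem om_yy_le {A : Set Blk} {f : C(ℝ, ℝ)} (hf : f ∈ XX A) (k : ℕ) (ν : Blk × ℕ) :
    om k ν * |yy ν f| ≤ pp k f := by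
  have := abs_le_pp k f (abs_tau_le k (enc ν))
  rwa [eval_tau hf, abs_mul, abs_of_pos (om_pos k ν)] at this

theorem pp_le_of_yy {A : Set Blk} {f : C(ℝ, ℝ)} (hf : f ∈ XX A) (k : ℕ) {c : ℝ} (hc : 0 ≤ c)
    (h : ∀ ν, om k ν * |yy ν f| ≤ c) : pp k f ≤ c := by
  refine pp_le k f hc fun t ht => ?_
  by_cases hb : ∀ k j, bump k j t = 0
  · have := vanish' (ContinuousMap.evalCLM ℝ t) (fun μ => by
      rw [ContinuousMap.evalCLM_apply]
      exact tents_of_zero _ _ hb) hf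
    rw [ContinuousMap.evalCLM_apply] at this
    rw [this]
    simpa using hc
  · push Not at hb
    obtain ⟨k', j, hb⟩ := hb
    obtain ⟨ν, rfl⟩ := enc.surjective j
    have h1 := vanish' (ContinuousMap.evalCLM ℝ t -
      bump k' (enc ν) t • ContinuousMap.evalCLM ℝ (tau k' (enc ν))) (fun μ => by
        simp only [sub_apply, ContinuousMap.evalCLM_apply,
          smul_apply, smul_eq_mul, GG]
        rw [tents_of_ne _ _ hb, tents_tau]
        ring) hf
    simp only [sub_apply, ContinuousMap.evalCLM_apply,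
      smul_apply, smul_eq_mul, sub_eq_zero] at h1
    have hk : k' ≤ k := by
      have h2 := (bump_range hb).1
      have h3 : (k' : ℝ) < k + 1 := lt_of_lt_of_le h2 ((le_abs_self t).trans ht)
      have h4 : k' < k + 1 := by exact_mod_cast h3
      omega
    rw [h1, eval_tau hf, abs_mul, abs_mul, abs_of_nonneg (bump_nonneg _ _ _),
      abs_of_pos (om_pos _ _)]
    have h5 := om_mono hk ν
    have h6 := bump_le_one k' (enc ν) t
    have h7 := bump_nonneg k' (enc ν) t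
    have h8 := abs_nonneg (yy ν f)
    have h9 := (om_pos k' ν).le
    calc _ ≤ 1 * (om k ν * |yy ν f|) := by gcongr
      _ ≤ c := by rw [one_mul]; exact h ν

theorem eq_zero_of_pp {A : Set Blk} {f : C(ℝ, ℝ)} (hf : f ∈ XX A) {k : ℕ} (h : pp k f = 0) :
    f = 0 := by
  have h1 : ∀ ν, yy ν f = 0 := by
    intro ν
    have h2 := om_yy_le hf k ν
    rw [h] at h2
    have h3 := om_pos k ν
    have h4 := abs_nonneg (yy ν f)
    exact abs_eq_zero.mp (by nlinarith)
  exact sys_pp.sep f fun l =>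
    le_antisymm (pp_le_of_yy hf l le_rfl fun ν => by simp [h1]) (apply_nonneg _ _)

theorem nuclear_bound {A : Set Blk} {f : C(ℝ, ℝ)} (hf : f ∈ XX A) (l N : ℕ)
    (h : ∀ j < N, yy (enc.symm j) f = 0) : pp l f ≤ (1 / 2) ^ N * pp (l + 1) f := by
  have hp : 0 ≤ pp (l + 1) f := apply_nonneg _ _
  refine pp_le_of_yy hf l (by positivity) fun ν => ?_
  by_cases h0 : yy ν f = 0
  · rw [h0]
    simp only [abs_zero, mul_zero]
    positivity
  · have h1 : ν.2 ≤ ν.1.1 := by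
      by_contra hcon
      exact h0 (yy_eq_zero hf (Or.inr (not_le.mp hcon)))
    have h2 : N ≤ enc ν := by
      by_contra hcon
      exact h0 (by simpa using h _ (not_le.mp hcon))
    have h3 : (2 : ℝ) ^ N ≤ WW ν.1 := by
      refine le_trans ?_ (WW_ge ν.1 h1)
      have h4 : (2 : ℝ) ^ N ≤ 2 ^ enc ν := pow_le_pow_right₀ (by norm_num) h2
      have h5 : (0 : ℝ) ≤ ν.1.1 := Nat.cast_nonneg _
      have h6 : (0 : ℝ) < 2 ^ enc ν := by positivity
      nlinarith
    have h4 := om_yy_le hf (l + 1) ν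
    have h5 := om_succ l ν
    have h6 := abs_nonneg (yy ν f)
    have h7 := (om_pos l ν).le
    have h8 : om l ν * 2 ^ N * |yy ν f| ≤ pp (l + 1) f := by
      refine le_trans ?_ h4
      gcongr
      exact le_trans (by gcongr) h5
    rw [one_div, inv_pow, inv_mul_eq_div, le_div_iff₀ (by positivity)]
    linarith

theorem yy_uu (ν : Blk × ℕ) (β : Blk) (i j : ℕ) :
    yy ν (uu β i j) = (if (β, i) = ν then 1 else 0) - if (β, j) = ν then 1 else 0 := by
  simp only [uu, map_sub, yy_GG]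

theorem pp_uu_le {A : Set Blk} {β : Blk} (hβ : β ∈ A) {i j : ℕ} (hi : i ≤ β.1) (hj : j ≤ β.1)
    (k : ℕ) {c : ℝ} (h1 : om k (β, i) ≤ c) (h2 : om k (β, j) ≤ c) : pp k (uu β i j) ≤ c := by
  have hc : 0 ≤ c := (om_pos _ _).le.trans h1
  refine pp_le_of_yy (uu_mem hβ hi hj) k hc fun ν => ?_
  rw [yy_uu]
  split_ifs with h3 h4 h4
  · simpa using hc
  · subst h3; simpa using h1
  · subst h4; simpa using h2
  · simpa using hc

end Pool.Agent.P.MP_708f28_lc
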