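import Pool.Agent.P.MP_708f28_lc.Frechet

/-!
The Dynin-Mityagin argument (a basis of a nuclear space is absolute), and the fact that a
basic sequence is a Schauder basis of its closed span.
-/

set_option linter.unusedSectionVars false

namespace Pool.Agent.P.MP_708f28_lc

open Filter Topology Finset

variable {E : Type*} [AddCommGroup E] [Module ℝ E] [TopologicalSpace E]
variable {p : ℕ → Seminorm ℝ E}

theorem sum_le_of_exists_small (r g : ℕ → ℝ)
    (h : ∀ S : Finset ℕ, S.Nonempty → ∃ j ∈ S, r j ≤ g S.card) :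
    ∀ S : Finset ℕ, ∑ j ∈ S, r j ≤ ∑ n ∈ range S.card, g (n + 1) := by
  intro S
  induction hn : S.card generalizing S with
  | zero => simp [card_eq_zero.mp hn]
  | succ n ih =>
    obtain ⟨j, hj, hr⟩ := h S (card_pos.mp (by omega))
    have h1 := ih (S.erase j) (by rw [card_erase_of_mem hj]; omega)
    rw [← add_sum_erase S r hj, sum_range_succ]
    rw [hn] at hr
    linarith

theorem absolute_of_nuclear (h : Sys p) (hnorm : ∀ k x, p k x = 0 → x = 0)
    (hnuc : ∀ l N : ℕ, ∃ ψ : Fin N → E →ₗ[ℝ] ℝ, ∀ x, (∀ i, ψ i x = 0) →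
      p l x ≤ (1 / 2) ^ N * p (l + 1) x)
    (e : ℕ → E) (a : ℕ → E →ₗ[ℝ] ℝ) (hae : ∀ i j, a i (e j) = if i = j then 1 else 0)
    (heq : ∀ k, ∃ l, ∃ C : ℝ, 0 < C ∧ ∀ x j, |a j x| * p k (e j) ≤ C * p l x) (k : ℕ) :
    ∃ l, k ≤ l ∧ ∃ C : ℝ, 0 < C ∧ ∀ (x : E) (S : Finset ℕ),
      ∑ j ∈ S, |a j x| * p k (e j) ≤ C * p l x := by
  obtain ⟨l, C, hC, hl⟩ := heq k
  obtain ⟨l', C', hC', hl'⟩ := heq (l + 1)
  have hepos : ∀ m j, 0 < p m (e j) := by
    intro m j
    refine lt_of_le_of_ne (apply_nonneg _ _) fun h0 => ?_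
    have h1 := hae j j
    rw [hnorm m _ h0.symm] at h1
    simp at h1
  set r : ℕ → ℝ := fun j => p k (e j) / p (l + 1) (e j) with hr
  set g : ℕ → ℝ := fun N => C * (N * (1 / 2) ^ (N - 1)) with hg
  have hsmall : ∀ S : Finset ℕ, S.Nonempty → ∃ j ∈ S, r j ≤ g S.card := by
    intro S hS
    obtain ⟨j₀, hj₀, hmin⟩ := exists_min_image S r hS
    refine ⟨j₀, hj₀, ?_⟩
    obtain ⟨ψ, hψ⟩ := hnuc l (S.card - 1)
    let T : (S → ℝ) →ₗ[ℝ] E := ∑ j : S, (LinearMap.proj j).smulRight (e j)
    have hT : ∀ c, T c = ∑ j : S, c j • e j := fun c => by simp [T, LinearMap.sum_apply]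
    have hker : ((LinearMap.pi ψ).comp T).ker ≠ ⊥ := by
      apply LinearMap.ker_ne_bot_of_finrank_lt
      have := card_pos.mpr hS
      simp only [Module.finrank_fintype_fun_eq_card, Fintype.card_fin, Fintype.card_coe]
      omega
    obtain ⟨c, hc, hc0⟩ := Submodule.exists_mem_ne_zero_of_ne_bot hker
    have hcoef : ∀ j : S, a j (T c) = c j := by
      intro j
      rw [hT, map_sum, Finset.sum_eq_single j]
      · simp [hae]
      · intro i _ hij
        have : (j : ℕ) ≠ i := fun h => hij (Subtype.ext h.symm)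
        simp [hae, this]
      · simp
    have hx0 : T c ≠ 0 := by
      intro h0
      apply hc0
      funext j
      rw [← hcoef j, h0]
      simp
    have hxpos : 0 < p (l + 1) (T c) :=
      lt_of_le_of_ne (apply_nonneg _ _) fun h0 => hx0 (hnorm _ _ h0.symm)
    have h1 : p l (T c) ≤ (1 / 2) ^ (S.card - 1) * p (l + 1) (T c) :=
      hψ _ fun i => by simpa using congrFun (LinearMap.mem_ker.mp hc) i
    have hr0 : 0 ≤ r j₀ := div_nonneg (apply_nonneg _ _) (apply_nonneg _ _)
    have h2 : p (l + 1) (T c) ≤ ∑ j : S, |c j| * p (l + 1) (e j) := by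
      rw [hT]
      refine (le_sum_of_subadditive (p (l + 1)) (map_zero _).le (map_add_le_add _) _ _).trans ?_
      exact sum_le_sum fun j _ => by rw [map_smul_eq_mul, Real.norm_eq_abs]
    have h3 : r j₀ * p (l + 1) (T c) ≤ ∑ _j : S, C * p l (T c) := by
      refine (mul_le_mul_of_nonneg_left h2 hr0).trans ?_
      rw [mul_sum]
      refine sum_le_sum fun j _ => ?_
      have h4 : r j₀ * p (l + 1) (e j) ≤ p k (e j) :=
        (le_div_iff₀ (hepos _ _)).mp (hmin j j.2)
      have h5 := hl (T c) j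
      rw [hcoef] at h5
      have h6 := abs_nonneg (c j)
      nlinarith
    simp only [sum_const, card_univ, Fintype.card_coe, nsmul_eq_mul] at h3
    have h4 : (S.card : ℝ) * (C * p l (T c))
        ≤ S.card * (C * ((1 / 2) ^ (S.card - 1) * p (l + 1) (T c))) := by gcongr
    refine le_of_mul_le_mul_right ?_ hxpos
    simp only [hg]
    nlinarith
  have hsum : Summable fun n : ℕ => g (n + 1) := by
    have h1 : Summable fun n : ℕ => (n : ℝ) ^ 1 * (1 / 2 : ℝ) ^ n :=
      summable_pow_mul_geometric_of_norm_lt_one 1 (by norm_num)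
    have h2 := (h1.add summable_geometric_two).mul_left C
    refine h2.congr fun n => ?_
    simp only [hg, Nat.add_sub_cancel]
    push_cast
    ring
  have hg0 : ∀ n, 0 ≤ g (n + 1) := fun n => by simp only [hg]; positivity
  set D := ∑' n, g (n + 1) with hD
  have hD0 : 0 ≤ D := tsum_nonneg hg0
  refine ⟨max k l', le_max_left _ _, (D + 1) * C', by positivity, fun x S => ?_⟩
  have h1 : ∑ j ∈ S, r j ≤ D :=
    (sum_le_of_exists_small r g hsmall S).trans (hsum.sum_le_tsum _ fun n _ => hg0 n)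
  have h2 : ∑ j ∈ S, |a j x| * p k (e j) ≤ ∑ j ∈ S, r j * (C' * p l' x) := by
    refine sum_le_sum fun j _ => ?_
    have h3 : p k (e j) = r j * p (l + 1) (e j) := by
      simp only [hr]
      rw [div_mul_cancel₀ _ (hepos _ _).ne']
    have hr0 : 0 ≤ r j := div_nonneg (apply_nonneg _ _) (apply_nonneg _ _)
    calc |a j x| * p k (e j) = r j * (|a j x| * p (l + 1) (e j)) := by rw [h3]; ring
      _ ≤ _ := mul_le_mul_of_nonneg_left (hl' x j) hr0
  rw [← sum_mul] at h2
  have h3 : p l' x ≤ p (max k l') x := h.mono _ _ (le_max_right _ _) x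
  have h4 : 0 ≤ p l' x := apply_nonneg _ _
  calc _ ≤ (∑ j ∈ S, r j) * (C' * p l' x) := h2
    _ ≤ (D + 1) * (C' * p l' x) := by gcongr; linarith
    _ ≤ (D + 1) * (C' * p (max k l') x) := by gcongr
    _ = _ := by ring

theorem exists_repr_of_mem_span (e : ℕ → E) {y : E} (hy : y ∈ Submodule.span ℝ (Set.range e)) :
    ∃ (c : ℕ → ℝ) (M : ℕ), (∀ n, M ≤ n → c n = 0) ∧ y = ∑ n ∈ range M, c n • e n := by
  obtain ⟨c, rfl⟩ := Finsupp.mem_span_range_iff_exists_finsupp.mp hy
  obtain ⟨M, hM⟩ := c.support.exists_nat_subset_range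
  refine ⟨c, M, fun n hn => ?_, ?_⟩
  · by_contra h0
    have := mem_range.mp (hM (Finsupp.mem_support_iff.mpr h0))
    omega
  · exact Finsupp.sum_of_support_subset _ hM _ (by simp)

variable [IsTopologicalAddGroup E] [ContinuousSMul ℝ E] [T2Space E]

/-- A basic sequence is a Schauder basis of its closed span. -/
theorem basis_of_basic (h : Sys p) (e : ℕ → E) (he : ∀ n, e n ≠ 0)
    (hb : ∀ k, ∃ l, ∃ C : ℝ, ∀ (N M : ℕ) (c : ℕ → ℝ), N ≤ M →
      p k (∑ n ∈ range N, c n • e n) ≤ C * p l (∑ n ∈ range M, c n • e n))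
    (x : E) (hx : x ∈ closure (Submodule.span ℝ (Set.range e) : Set E)) :
    ∃! a : ℕ → ℝ, Tendsto (fun N => ∑ n ∈ range N, a n • e n) atTop (𝓝 x) := by
  have hcoefbd : ∀ n, ∃ l, ∃ C : ℝ, 0 ≤ C ∧ ∀ (M : ℕ) (c : ℕ → ℝ), n < M →
      |c n| ≤ C * p l (∑ i ∈ range M, c i • e i) := by
    intro n
    obtain ⟨j, hj⟩ : ∃ j, p j (e n) ≠ 0 := by
      by_contra hcon
      push Not at hcon
      exact he n (h.sep _ hcon)
    have hj0 : 0 < p j (e n) := lt_of_le_of_ne (apply_nonneg _ _) hj.symm
    obtain ⟨l, C, hl⟩ := hb j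
    refine ⟨l, 2 * |C| / p j (e n), by positivity, fun M c hM => ?_⟩
    have h1 : c n • e n = ∑ i ∈ range (n + 1), c i • e i - ∑ i ∈ range n, c i • e i := by
      rw [sum_range_succ]; abel
    have h2 := map_sub_le_add (p j) (∑ i ∈ range (n + 1), c i • e i) (∑ i ∈ range n, c i • e i)
    rw [← h1, map_smul_eq_mul, Real.norm_eq_abs] at h2
    have h3 := hl (n + 1) M c hM
    have h4 := hl n M c hM.le
    have h5 : 0 ≤ p l (∑ i ∈ range M, c i • e i) := apply_nonneg _ _
    rw [div_mul_eq_mul_div, le_div_iff₀ hj0]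
    nlinarith [le_abs_self C]
  have hli : LinearIndependent ℝ e := by
    rw [linearIndependent_iff']
    intro s g hg i hi
    obtain ⟨M, hM⟩ := s.exists_nat_subset_range
    obtain ⟨l, C, -, hl⟩ := hcoefbd i
    have h1 := hl M (fun n => if n ∈ s then g n else 0) (mem_range.mp (hM hi))
    have h2 : ∑ n ∈ range M, (if n ∈ s then g n else 0) • e n = 0 := by
      rw [← hg, ← sum_subset hM (fun n _ hn => by simp [hn])]
      exact sum_congr rfl fun n hn => by simp [hn]
    rw [h2] at h1
    simpa [hi] using h1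
  have hfun : ∀ n, ∃ g : E →ₗ[ℝ] ℝ, Continuous g ∧ ∀ m, g (e m) = if n = m then 1 else 0 := by
    intro n
    obtain ⟨l, C, hC, hl⟩ := hcoefbd n
    let f : E →ₗ.[ℝ] ℝ := ⟨Submodule.span ℝ (Set.range e), (Finsupp.lapply n).comp hli.repr⟩
    have hf : ∀ (m : ℕ) (hm : e m ∈ Submodule.span ℝ (Set.range e)),
        f ⟨e m, hm⟩ = if n = m then 1 else 0 := by
      intro m hm
      change hli.repr ⟨e m, hm⟩ n = _
      rw [hli.repr_eq_single m _ rfl, Finsupp.single_apply]
      simp only [eq_comm]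
    obtain ⟨g, hg1, hg2⟩ := exists_extension_of_le_sublinear f (fun y => C * p l y)
      (fun t ht y => by rw [map_smul_eq_mul, Real.norm_eq_abs, abs_of_pos ht]; ring)
      (fun y z => by nlinarith [map_add_le_add (p l) y z])
      (by
        rintro ⟨y, hy⟩
        obtain ⟨M, hM⟩ := (insert n (hli.repr ⟨y, hy⟩).support).exists_nat_subset_range
        have h1 := hl M (hli.repr ⟨y, hy⟩) (mem_range.mp (hM (mem_insert_self _ _)))
        have h2 : ∑ i ∈ range M, (hli.repr ⟨y, hy⟩) i • e i = y := by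
          have h3 := hli.linearCombination_repr ⟨y, hy⟩
          rw [Finsupp.linearCombination_apply,
            Finsupp.sum_of_support_subset _ ((subset_insert _ _).trans hM) _ (by simp)] at h3
          exact h3
        rw [h2] at h1
        exact (le_abs_self _).trans h1)
    refine ⟨g, h.continuous_of_bound g l C fun y => abs_le.mpr ⟨?_, hg2 y⟩, fun m => ?_⟩
    · have := hg2 (-y)
      rw [map_neg, map_neg_eq_map] at this
      linarith
    · exact (hg1 ⟨e m, Submodule.subset_span ⟨m, rfl⟩⟩).trans (hf m _)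
  choose g hgc hge using hfun
  have hgsum : ∀ (c : ℕ → ℝ) (M n : ℕ),
      g n (∑ i ∈ range M, c i • e i) = if n < M then c n else 0 := by
    intro c M n
    simp [map_sum, hge]
  have hScont : ∀ N, Continuous (psum e g N) := by
    intro N
    have : (psum e g N : E → E) = fun x => ∑ n ∈ range N, g n x • e n :=
      funext fun x => psum_apply e g N x
    rw [this]
    exact continuous_finsetSum _ fun n _ => (hgc n).smul continuous_const
  have hspan : ∀ y ∈ Submodule.span ℝ (Set.range e), ∃ M, ∀ N, M ≤ N → psum e g N y = y := by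
    intro y hy
    obtain ⟨c, M, hc, rfl⟩ := exists_repr_of_mem_span e hy
    refine ⟨M, fun N hN => ?_⟩
    rw [psum_apply, ← sum_subset (range_subset_range.mpr hN)]
    · exact sum_congr rfl fun n hn => by rw [hgsum, if_pos (mem_range.mp hn)]
    · intro n _ hn
      rw [hgsum, if_neg (by simpa using hn), zero_smul]
  refine ⟨fun n => g n x, ?_, fun c hc => ?_⟩
  · simp only [← psum_apply]
    rw [h.tendsto_iff]
    intro k ε hε
    obtain ⟨l, C, hl⟩ := hb k
    have hbd : ∀ N, ∀ z ∈ closure (Submodule.span ℝ (Set.range e) : Set E),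
        p k (psum e g N z) ≤ C * p l z := by
      intro N z hz
      refine closure_minimal (t := {z | p k (psum e g N z) ≤ C * p l z}) (fun y hy => ?_)
        (isClosed_le ((h.continuous k).comp (hScont N))
          (continuous_const.mul (h.continuous l))) hz
      obtain ⟨M, hM⟩ := hspan y hy
      have h1 := hl N (max M N) (fun n => g n y) (le_max_right _ _)
      rw [← psum_apply, ← psum_apply, hM _ (le_max_left _ _)] at h1
      exact h1
    have hη : 0 < ε / (|C| + 1) := by positivity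
    obtain ⟨y, hy, hyx⟩ := h.mem_closure_iff.mp hx (max k l) _ hη
    obtain ⟨M, hM⟩ := hspan y hy
    filter_upwards [eventually_ge_atTop M] with N hN
    have h1 : psum e g N x - x = (y - x) - psum e g N (y - x) := by
      rw [map_sub, hM N hN]; abel
    have h2 := hbd N (y - x) ((Submodule.span ℝ (Set.range e)).topologicalClosure.sub_mem
      (subset_closure hy) hx)
    have h3 := map_sub_le_add (p k) (y - x) (psum e g N (y - x))
    have h4 := h.mono k _ (le_max_left k l) (y - x)
    have h5 := h.mono l _ (le_max_right k l) (y - x)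
    have h6 : p (max k l) (y - x) * (|C| + 1) < ε := (lt_div_iff₀ (by positivity)).mp hyx
    have h7 : 0 ≤ p l (y - x) := apply_nonneg _ _
    rw [h1]
    nlinarith [le_abs_self C, abs_nonneg C]
  · funext n
    have h1 := ((hgc n).tendsto x).comp hc
    have h2 : Tendsto (g n ∘ fun N => ∑ i ∈ range N, c i • e i) atTop (𝓝 (c n)) := by
      refine tendsto_const_nhds.congr' ?_
      filter_upwards [eventually_gt_atTop n] with N hN
      simp only [Function.comp, hgsum, if_pos hN]
    exact tendsto_nhds_unique h2 h1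

end Pool.Agent.P.MP_708f28_lc
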